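import Mathlib

/-! Every nonempty perfect subset of the Cantor space is homeomorphic to the Cantor space
(proof adapted from the starting file of MP_dd3545_lc). -/

set_option autoImplicit false

open Filter Topology

namespace Pool.Agent.H546Z.Cantor

def Branching (P : Set (ℕ → Bool)) (x : ℕ → Bool) (n : ℕ) : Prop :=
  ∀ b : Bool, ∃ y ∈ P, (∀ i < n, y i = x i) ∧ y n = b

noncomputable def turns (P : Set (ℕ → Bool)) (x : ℕ → Bool) (k : ℕ) : Bool :=
  x (Nat.nth (Branching P x) k)

lemma isOpen_cyl (x : ℕ → Bool) (n : ℕ) : IsOpen {y : ℕ → Bool | ∀ i < n, y i = x i} := by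
  have h : {y : ℕ → Bool | ∀ i < n, y i = x i} =
      Set.pi (Finset.range n : Set ℕ) (fun i => {x i}) := by
    ext y; simp [Set.mem_pi]
  rw [h]
  exact isOpen_set_pi (Finset.finite_toSet _) (fun i _ => isOpen_discrete _)

lemma exists_cyl {x : ℕ → Bool} {U : Set (ℕ → Bool)} (hU : U ∈ 𝓝 x) :
    ∃ n, {y : ℕ → Bool | ∀ i < n, y i = x i} ⊆ U := by
  rw [nhds_pi, Filter.mem_pi'] at hU
  obtain ⟨I, t, ht, hsub⟩ := hU
  refine ⟨I.sup id + 1, fun y hy => hsub ?_⟩
  intro i hi
  have : y i = x i := hy i (Nat.lt_succ_of_le (Finset.le_sup (f := id) hi))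
  rw [this]
  exact mem_of_mem_nhds (ht i)

lemma branching_congr (P : Set (ℕ → Bool)) {x x' : ℕ → Bool} {n : ℕ} (h : ∀ i < n, x i = x' i) :
    Branching P x n ↔ Branching P x' n := by
  constructor
  · intro hb b
    obtain ⟨y, hy, h1, h2⟩ := hb b
    exact ⟨y, hy, fun i hi => (h1 i hi).trans (h i hi), h2⟩
  · intro hb b
    obtain ⟨y, hy, h1, h2⟩ := hb b
    exact ⟨y, hy, fun i hi => (h1 i hi).trans (h i hi).symm, h2⟩

/-- first difference is branching -/
lemma exists_diff {P : Set (ℕ → Bool)} {x y : ℕ → Bool} (hx : x ∈ P) (hy : y ∈ P) (hne : x ≠ y) :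
    ∃ n, (∀ i < n, x i = y i) ∧ x n ≠ y n ∧ Branching P x n ∧ Branching P y n := by
  classical
  have hex : ∃ n, x n ≠ y n := by
    by_contra hc
    push Not at hc
    exact hne (funext hc)
  have h1 : ∀ i < Nat.find hex, x i = y i := by
    intro i hi
    by_contra hc
    exact Nat.find_min hex hi hc
  have h2 : x (Nat.find hex) ≠ y (Nat.find hex) := Nat.find_spec hex
  have h3 : Branching P x (Nat.find hex) := by
    intro b
    by_cases hb : x (Nat.find hex) = b
    · exact ⟨x, hx, fun i _ => rfl, hb⟩
    · refine ⟨y, hy, fun i hi => (h1 i hi).symm, ?_⟩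
      revert h2 hb
      generalize x (Nat.find hex) = u
      generalize y (Nat.find hex) = v
      cases u <;> cases v <;> cases b <;> simp
  exact ⟨Nat.find hex, h1, h2, h3, (branching_congr P h1).mp h3⟩

lemma infinite_branching {P : Set (ℕ → Bool)} (hP : Perfect P) {x : ℕ → Bool} (hx : x ∈ P) :
    (Set.ofPred (Branching P x)).Infinite := by
  rw [Set.infinite_iff_exists_gt]
  intro N
  obtain ⟨y, ⟨hyU, hyP⟩, hne⟩ := preperfect_iff_nhds.mp hP.acc x hx
    {y : ℕ → Bool | ∀ i < N + 1, y i = x i} ((isOpen_cyl x (N + 1)).mem_nhds (fun i _ => rfl))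
  obtain ⟨n, h1, h2, h3, -⟩ := exists_diff hx hyP hne.symm
  refine ⟨n, h3, ?_⟩
  by_contra hc
  exact h2 (hyU n (by omega)).symm

lemma nth_agree {P : Set (ℕ → Bool)} {x x' : ℕ → Bool}
    (hinf : (Set.ofPred (Branching P x)).Infinite) {k : ℕ}
    (h : ∀ i < Nat.nth (Branching P x) k, x' i = x i) :
    Nat.nth (Branching P x') k = Nat.nth (Branching P x) k := by
  classical
  set m := Nat.nth (Branching P x) k with hm
  have h1 : Branching P x m := Nat.nth_mem_of_infinite hinf k
  have h2 : Branching P x' m := (branching_congr P h).mpr h1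
  have h3 : Nat.count (Branching P x) m = k := Nat.count_nth_of_infinite hinf k
  have h4 : Nat.count (Branching P x') m = Nat.count (Branching P x) m := by
    rw [Nat.count_eq_card_filter_range, Nat.count_eq_card_filter_range]
    congr 1
    apply Finset.filter_congr
    intro i hi
    rw [Finset.mem_range] at hi
    exact branching_congr P (fun j hj => h j (by omega))
  have h5 := Nat.nth_count h2
  rw [h4, h3] at h5
  exact h5

lemma turns_continuous {P : Set (ℕ → Bool)} (hP : Perfect P) :
    Continuous (fun x : P => turns P x) := by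
  rw [continuous_pi_iff]
  intro k
  rw [continuous_iff_continuousAt]
  intro x
  have hinf := infinite_branching hP x.2
  apply ContinuousAt.congr (f := fun _ => turns P x k) continuousAt_const
  have hU : {x' : P | ∀ i < Nat.nth (Branching P x) k + 1, (x' : ℕ → Bool) i = (x : ℕ → Bool) i} ∈ 𝓝 x := by
    have := (isOpen_cyl x (Nat.nth (Branching P x) k + 1)).preimage (continuous_subtype_val (p := fun z => z ∈ P))
    exact this.mem_nhds (fun i _ => rfl)
  filter_upwards [hU] with x' hx'
  have h1 := nth_agree hinf (x' := x') (k := k) (fun i hi => hx' i (by omega))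
  unfold turns
  rw [h1]
  exact (hx' _ (Nat.lt_succ_self _)).symm

lemma turns_injOn (P : Set (ℕ → Bool)) : Set.InjOn (turns P) P := by
  classical
  intro x hx y hy hxy
  by_contra hne
  obtain ⟨n, h1, h2, h3, h4⟩ := exists_diff hx hy hne
  have h5 : Nat.count (Branching P x) n = Nat.count (Branching P y) n := by
    rw [Nat.count_eq_card_filter_range, Nat.count_eq_card_filter_range]
    congr 1
    apply Finset.filter_congr
    intro i hi
    rw [Finset.mem_range] at hi
    exact branching_congr P (fun j hj => h1 j (by omega))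
  have h6 := congrFun hxy (Nat.count (Branching P x) n)
  unfold turns at h6
  rw [Nat.nth_count h3, h5, Nat.nth_count h4] at h6
  exact h2 h6

lemma turns_approx {P : Set (ℕ → Bool)} (hP : Perfect P) (hne : P.Nonempty) (y : ℕ → Bool)
    (K : ℕ) :
    ∃ x ∈ P, ∀ k < K, turns P x k = y k := by
  induction K with
  | zero =>
    obtain ⟨x, hx⟩ := hne
    exact ⟨x, hx, by simp⟩
  | succ K ih =>
    obtain ⟨x, hx, h⟩ := ih
    have hinf := infinite_branching hP hx
    obtain ⟨x', hx', h1, h2⟩ := Nat.nth_mem_of_infinite hinf K (y K)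
    refine ⟨x', hx', fun k hk => ?_⟩
    rcases Nat.lt_succ_iff_lt_or_eq.mp hk with hk' | rfl
    · have h3 : Nat.nth (Branching P x) k < Nat.nth (Branching P x) K := Nat.nth_strictMono hinf hk'
      have h4 := nth_agree hinf (x' := x') (k := k) (fun i hi => h1 i (by omega))
      rw [← h k hk']
      unfold turns
      rw [h4]
      exact h1 _ h3
    · have h4 := nth_agree hinf (x' := x') (k := k) h1
      unfold turns
      rw [h4]
      exact h2

lemma turns_surjOn {P : Set (ℕ → Bool)} (hP : Perfect P) (hne : P.Nonempty) (y : ℕ → Bool) :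
    ∃ x : P, turns P x = y := by
  have hcomp : CompactSpace P := isCompact_iff_compactSpace.mp hP.closed.isCompact
  have hcl : IsClosed (Set.range (fun x : P => turns P x)) :=
    (isCompact_range (turns_continuous hP)).isClosed
  have hmem : y ∈ closure (Set.range (fun x : P => turns P x)) := by
    rw [mem_closure_iff_nhds]
    intro U hU
    obtain ⟨n, hn⟩ := exists_cyl hU
    obtain ⟨x, hx, h⟩ := turns_approx hP hne y n
    exact ⟨turns P x, hn h, ⟨x, hx⟩, rfl⟩
  rw [hcl.closure_eq] at hmem
  exact hmem

/-- every nonempty perfect set is homeomorphic to the Cantor space -/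
lemma exists_homeo {P : Set (ℕ → Bool)} (hP : Perfect P) (hne : P.Nonempty) :
    Nonempty ((ℕ → Bool) ≃ₜ P) := by
  have hcomp : CompactSpace P := isCompact_iff_compactSpace.mp hP.closed.isCompact
  have hinj : Function.Injective (fun x : P => turns P x) := fun x y hxy =>
    Subtype.ext (turns_injOn P x.2 y.2 hxy)
  have hsurj : Function.Surjective (fun x : P => turns P x) := turns_surjOn hP hne
  let e : P ≃ (ℕ → Bool) := Equiv.ofBijective _ ⟨hinj, hsurj⟩
  have he : Continuous e := turns_continuous hP
  exact ⟨(he.homeoOfEquivCompactToT2).symm⟩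

end Pool.Agent.H546Z.Cantor
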