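import Mathlib
import Pool.Agent.Helper281.Sc.LN

set_option autoImplicit false

namespace Pool.Agent.H546Z.Am

open Filter Topology

variable {X : Type}

/-- A Borel assignment of probability vectors supported on the classes. -/
structure Asg [MeasurableSpace X] (E : X → X → Prop) (f : X × X → ℝ) : Prop where
  meas : Measurable f
  nonneg : ∀ p, 0 ≤ f p
  supp : ∀ x z, ¬ E x z → f (x, z) = 0
  sum : ∀ x, HasSum (fun z => f (x, z)) 1

/-- the l1 distance of the vectors at two points -/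
noncomputable def DD (f : X × X → ℝ) (x y : X) : ℝ := ∑' z, |f (x, z) - f (y, z)|

abbrev L1 (X : Type) : Type := lp (fun _ : X => ℝ) 1

theorem L1_norm (v : L1 X) : ‖v‖ = ∑' z, |v z| := by
  rw [lp.norm_eq_tsum_rpow (by simp)]
  simp

/-- a summable family as a vector -/
noncomputable def vec (u : X → ℝ) (h : Summable u) : L1 X :=
  ⟨u, memℓp_gen (by simpa using h.abs)⟩

theorem vec_apply (u : X → ℝ) (h : Summable u) (z : X) : vec u h z = u z := rfl

section
variable [MeasurableSpace X] {E : X → X → Prop}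

/-- the vector of an assignment -/
noncomputable def Asg.v {f : X × X → ℝ} (h : Asg E f) (x : X) : L1 X := vec _ (h.sum x).summable

theorem Asg.v_apply {f : X × X → ℝ} (h : Asg E f) (x z : X) : h.v x z = f (x, z) := rfl

theorem Asg.v_norm {f : X × X → ℝ} (h : Asg E f) (x : X) : ‖h.v x‖ = 1 := by
  rw [L1_norm, ← (h.sum x).tsum_eq]
  congr 1
  funext z
  rw [h.v_apply, abs_of_nonneg (h.nonneg _)]

theorem Asg.DD_eq {f : X × X → ℝ} (h : Asg E f) (x y : X) : DD f x y = ‖h.v x - h.v y‖ := by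
  rw [L1_norm]
  rfl

theorem Asg.DD_nonneg {f : X × X → ℝ} (h : Asg E f) (x y : X) : 0 ≤ DD f x y := by
  rw [h.DD_eq]; exact norm_nonneg _

theorem Asg.DD_le {f : X × X → ℝ} (h : Asg E f) (x y : X) : DD f x y ≤ 2 := by
  rw [h.DD_eq]
  refine (norm_sub_le _ _).trans ?_
  rw [h.v_norm, h.v_norm]
  norm_num

theorem Asg.DD_meas [StandardBorelSpace X] {f : X × X → ℝ} (h : Asg E f) (hE : Equivalence E)
    {δ : ℕ → X → X} (hδ : ∀ n, Measurable (δ n)) (hδE : ∀ x y, E x y ↔ ∃ n, δ n x = y) (i : ℕ) :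
    Measurable (fun x => DD f x (δ i x)) := by
  classical
  have key : ∀ x, DD f x (δ i x) = ∑' n, if (∀ n' < n, δ n' x ≠ δ n x) then
      |f (x, δ n x) - f (δ i x, δ n x)| else 0 := by
    intro x
    have hinj : Function.Injective
        (fun n : {n : ℕ | ∀ n' < n, δ n' x ≠ δ n x} => δ n.1 x) := by
      rintro ⟨a, ha⟩ ⟨b, hb⟩ hab
      apply Subtype.ext
      rcases lt_trichotomy a b with h1 | h1 | h1
      · exact absurd hab (hb a h1)
      · exact h1
      · exact absurd hab.symm (ha b h1)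
    have hs : Function.support (fun z => |f (x, z) - f (δ i x, z)|) ⊆
        Set.range (fun n : {n : ℕ | ∀ n' < n, δ n' x ≠ δ n x} => δ n.1 x) := by
      intro z hz
      have hxz : E x z := by
        by_contra hn
        have h2 : ¬ E (δ i x) z := fun h3 => hn (hE.trans ((hδE _ _).2 ⟨i, rfl⟩) h3)
        apply hz
        simp [h.supp _ _ hn, h.supp _ _ h2]
      have hex := (hδE _ _).1 hxz
      refine ⟨⟨Nat.find hex, fun n' hn' h4 => Nat.find_min hex hn' ?_⟩, Nat.find_spec hex⟩
      rw [h4]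
      exact Nat.find_spec hex
    rw [DD, ← hinj.tsum_eq hs,
      tsum_subtype {n : ℕ | ∀ n' < n, δ n' x ≠ δ n x}
        (fun n => |f (x, δ n x) - f (δ i x, δ n x)|)]
    congr 1
    funext n
    rw [Set.indicator_apply]
    exact if_congr Iff.rfl rfl rfl
  simp only [key]
  apply Measurable.tsum
  intro n
  refine Measurable.ite ?_ ?_ measurable_const
  · have : {x | ∀ n' < n, δ n' x ≠ δ n x} = ⋂ n', ⋂ (_ : n' < n), {x | δ n' x = δ n x}ᶜ := by
      ext x; simp
    rw [this]
    exact MeasurableSet.iInter fun n' => MeasurableSet.iInter fun _ =>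
      (measurableSet_eq_fun (hδ n') (hδ n)).compl
  · exact ((h.meas.comp (measurable_id.prodMk (hδ n))).sub
      (h.meas.comp ((hδ i).prodMk (hδ n)))).abs

end

theorem norm_sum_sub_le {V : Type} [NormedAddCommGroup V] (v : ℕ → V) (hv : ∀ m, ‖v m‖ ≤ 1)
    {N N' : ℕ} (h : N ≤ N') :
    ‖∑ m ∈ Finset.range N', v m - ∑ m ∈ Finset.range N, v m‖ ≤ (N' : ℝ) - N := by
  rw [← Finset.sum_Ico_eq_sub _ h]
  refine (norm_sum_le _ _).trans ?_
  refine (Finset.sum_le_card_nsmul _ _ 1 (fun m _ => hv m)).trans ?_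
  rw [Nat.card_Ico, nsmul_eq_mul, mul_one, Nat.cast_sub h]

theorem avg_est {V : Type} [NormedAddCommGroup V] [NormedSpace ℝ V] (u v : ℕ → V)
    (hv : ∀ m, ‖v m‖ ≤ 1) {N N' C : ℕ} (hN : 1 ≤ N) (hN' : 1 ≤ N') (h1 : N ≤ N' + C)
    (h2 : N' ≤ N + C) :
    ‖(N : ℝ)⁻¹ • ∑ m ∈ Finset.range N, u m - (N' : ℝ)⁻¹ • ∑ m ∈ Finset.range N', v m‖ ≤
      (N : ℝ)⁻¹ * (∑ m ∈ Finset.range N, ‖u m - v m‖ + 2 * C) := by
  have hNp : (0 : ℝ) < N := by exact_mod_cast hN
  have hNp' : (0 : ℝ) < N' := by exact_mod_cast hN'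
  have h1' : (N : ℝ) ≤ N' + C := by exact_mod_cast h1
  have h2' : (N' : ℝ) ≤ N + C := by exact_mod_cast h2
  have e : (N : ℝ)⁻¹ • ∑ m ∈ Finset.range N, u m - (N' : ℝ)⁻¹ • ∑ m ∈ Finset.range N', v m =
      (N : ℝ)⁻¹ • (∑ m ∈ Finset.range N, (u m - v m)) +
      (N : ℝ)⁻¹ • (∑ m ∈ Finset.range N, v m - ∑ m ∈ Finset.range N', v m) +
      ((N : ℝ)⁻¹ - (N' : ℝ)⁻¹) • ∑ m ∈ Finset.range N', v m := by
    rw [Finset.sum_sub_distrib, smul_sub, smul_sub, sub_smul]
    abel
  have b1 : ‖∑ m ∈ Finset.range N, (u m - v m)‖ ≤ ∑ m ∈ Finset.range N, ‖u m - v m‖ :=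
    norm_sum_le _ _
  have b2 : ‖∑ m ∈ Finset.range N, v m - ∑ m ∈ Finset.range N', v m‖ ≤ C := by
    rcases le_total N N' with h | h
    · rw [norm_sub_rev]
      exact (norm_sum_sub_le v hv h).trans (by linarith)
    · exact (norm_sum_sub_le v hv h).trans (by linarith)
  have b3 : ‖∑ m ∈ Finset.range N', v m‖ ≤ N' := by
    simpa using norm_sum_sub_le v hv (Nat.zero_le N')
  have b4 : |(N : ℝ)⁻¹ - (N' : ℝ)⁻¹| * N' ≤ (N : ℝ)⁻¹ * C := by
    have : (N : ℝ)⁻¹ - (N' : ℝ)⁻¹ = (N : ℝ)⁻¹ * ((N' : ℝ) - N) * (N' : ℝ)⁻¹ := by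
      field_simp
    rw [this, abs_mul, abs_mul, abs_of_pos (inv_pos.2 hNp), abs_of_pos (inv_pos.2 hNp'),
      mul_assoc, inv_mul_cancel₀ hNp'.ne', mul_one]
    gcongr
    rw [abs_le]
    constructor <;> linarith
  rw [e]
  refine (norm_add₃_le).trans ?_
  rw [norm_smul, norm_smul, norm_smul, Real.norm_of_nonneg (inv_pos.2 hNp).le, Real.norm_eq_abs]
  have c1 := mul_le_mul_of_nonneg_left b1 (inv_pos.2 hNp).le
  have c2 := mul_le_mul_of_nonneg_left b2 (inv_pos.2 hNp).le
  have c3 := mul_le_mul_of_nonneg_left b3 (abs_nonneg ((N : ℝ)⁻¹ - (N' : ℝ)⁻¹))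
  rw [mul_add]
  linarith

/-- action of a word -/
def act (δ : ℕ → X → X) : List ℕ → X → X
  | [], x => x
  | i :: w, x => act δ w (δ i x)

/-- weight of a word -/
def wt : List ℕ → ℕ
  | [] => 0
  | i :: w => wt w + (i + 1)

theorem act_meas [MeasurableSpace X] {δ : ℕ → X → X} (hδ : ∀ n, Measurable (δ n)) (w : List ℕ) :
    Measurable (act δ w) := by
  induction w with
  | nil => exact measurable_id
  | cons i w ih => exact ih.comp (hδ i)

/-- Lipschitz envelope of functions tending to infinity -/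
theorem envelope [MeasurableSpace X] {δ : ℕ → X → X} (hδ : ∀ n, Measurable (δ n))
    (M : ℕ → X → ℕ) (hM : ∀ k, Measurable (M k)) (hM' : ∀ x r, ∀ᶠ k in atTop, r ≤ M k x) :
    ∃ L : ℕ → X → ℕ, (∀ k, Measurable (L k)) ∧ (∀ k x, L k x ≤ M k x) ∧
      (∀ k x i, L k x ≤ L k (δ i x) + (i + 1)) ∧ ∀ x r, ∀ᶠ k in atTop, r ≤ L k x := by
  refine ⟨fun k x => ⨅ w : List ℕ, (M k (act δ w x) + wt w), ?_, ?_, ?_, ?_⟩
  · intro k
    exact Measurable.iInf fun w => ((hM k).comp (act_meas hδ w)).add_const _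
  · intro k x
    exact ciInf_le' (fun w : List ℕ => M k (act δ w x) + wt w) []
  · intro k x i
    obtain ⟨w, hw⟩ := ciInf_mem (fun w : List ℕ => M k (act δ w (δ i x)) + wt w)
    have := ciInf_le' (fun w : List ℕ => M k (act δ w x) + wt w) (i :: w)
    dsimp only at hw ⊢
    rw [← hw]
    simp only [act, wt] at this
    omega
  · have key : ∀ r x, ∀ᶠ k in atTop, ∀ w : List ℕ, r ≤ M k (act δ w x) + wt w := by
      intro r
      induction r with
      | zero => intro x; simp
      | succ r ih =>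
        intro x
        have h1 : ∀ᶠ k in atTop, ∀ i ∈ Finset.range r, ∀ w : List ℕ,
            r ≤ M k (act δ w (δ i x)) + wt w :=
          (eventually_all_finset _).2 fun i _ => ih (δ i x)
        filter_upwards [h1, hM' x (r + 1)] with k hk1 hk2 w
        cases w with
        | nil => simpa [act, wt] using hk2
        | cons i w =>
          simp only [act, wt]
          by_cases hi : i < r
          · have := hk1 i (Finset.mem_range.2 hi) w
            omega
          · omega
    intro x r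
    filter_upwards [key r x] with k hk
    exact le_ciInf hk

/-- The two-step lemma: a doubly indexed family is replaced by a single sequence. -/
theorem two_step [MeasurableSpace X] [StandardBorelSpace X] {E : X → X → Prop}
    (hE : Equivalence E) {δ : ℕ → X → X} (hδ : ∀ n, Measurable (δ n))
    (hδE : ∀ x y, E x y ↔ ∃ n, δ n x = y) (g : ℕ → ℕ → X × X → ℝ) (hg : ∀ m k, Asg E (g m k)) :
    ∃ h : ℕ → X × X → ℝ, (∀ k, Asg E (h k)) ∧ ∀ x y, E x y → ∀ c : ℝ, 0 ≤ c →
      (∀ᶠ m in atTop, ∀ ε > 0, ∀ᶠ k in atTop, DD (g m k) x y ≤ c + ε) →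
      ∀ ε > 0, ∀ᶠ k in atTop, DD (h k) x y ≤ c + ε := by
  classical
  let a : ℕ → ℕ → ℕ → X → ℝ := fun m k i x => DD (g m k) x (δ i x)
  have ha : ∀ m k i, Measurable (a m k i) := fun m k i => (hg m k).DD_meas hE hδ hδE i
  let lam : ℕ → ℕ → X → ℝ := fun m i x => limsup (fun k => a m k i x) atTop
  have hlam : ∀ m i, Measurable (lam m i) := fun m i => Measurable.limsup fun k => ha m k i
  let good : ℕ → ℕ → X → Prop := fun m k x => ∀ i ≤ m, a m k i x ≤ lam m i x + 1 / ((m : ℝ) + 1)
  have hgood : ∀ m k, MeasurableSet {x | good m k x} := by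
    intro m k
    have : {x | good m k x} =
        ⋂ i, ⋂ (_ : i ≤ m), {x | a m k i x ≤ lam m i x + 1 / ((m : ℝ) + 1)} := by
      ext x; simp [good]
    rw [this]
    exact MeasurableSet.iInter fun i => MeasurableSet.iInter fun _ =>
      measurableSet_le (ha m k i) ((hlam m i).add_const _)
  have hev : ∀ m x, ∀ᶠ k in atTop, good m k x := by
    intro m x
    have h1 : ∀ᶠ k in atTop, ∀ i ∈ Finset.range (m + 1),
        a m k i x < lam m i x + 1 / ((m : ℝ) + 1) := by
      refine (eventually_all_finset _).2 fun i _ => ?_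
      refine eventually_lt_of_limsup_lt (lt_add_of_pos_right _ (by positivity)) ?_
      exact isBoundedUnder_of ⟨2, fun k => (hg m k).DD_le _ _⟩
    filter_upwards [h1] with k hk i hi
    exact (hk i (Finset.mem_range.2 (by omega))).le
  have hex : ∀ k x, ∃ m, m = k ∨ ¬ good m k x := fun k x => ⟨k, Or.inl rfl⟩
  let M : ℕ → X → ℕ := fun k x => Nat.find (hex k x)
  have hMmeas : ∀ k, Measurable (M k) := by
    intro k
    refine measurable_find (hex k) fun m => ?_
    exact (MeasurableSet.const _).union (hgood m k).compl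
  have hMgood : ∀ k x m, m < M k x → good m k x := by
    intro k x m hm
    have := Nat.find_min (hex k x) hm
    push Not at this
    exact this.2
  have hMinf : ∀ x r, ∀ᶠ k in atTop, r ≤ M k x := by
    intro x r
    have h1 : ∀ᶠ k in atTop, ∀ m ∈ Finset.range r, good m k x :=
      (eventually_all_finset _).2 fun m _ => hev m x
    filter_upwards [h1, eventually_ge_atTop r] with k hk1 hk2
    rw [Nat.le_find_iff]
    intro m hm
    push Not
    exact ⟨by omega, hk1 m (Finset.mem_range.2 hm)⟩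
  obtain ⟨L, hL1, hL2, hL3, hL4⟩ := envelope hδ M hMmeas hMinf
  let N : ℕ → X → ℕ := fun k x => max (L k x) 1
  have hN1 : ∀ k x, 1 ≤ N k x := fun k x => le_max_right _ _
  have hNpos : ∀ k x, (0 : ℝ) < N k x := fun k x => by exact_mod_cast hN1 k x
  let h : ℕ → X × X → ℝ := fun k p => (N k p.1 : ℝ)⁻¹ * ∑ m ∈ Finset.range (N k p.1), g m k p
  have hh : ∀ k, Asg E (h k) := by
    intro k
    refine ⟨?_, ?_, ?_, ?_⟩
    · have h1 : Measurable (fun q : ℕ × (X × X) =>
          (q.1 : ℝ)⁻¹ * ∑ m ∈ Finset.range q.1, g m k q.2) := by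
        apply measurable_from_prod_countable_right
        intro n
        exact (Finset.measurable_sum (Finset.range n) fun m _ => (hg m k).meas).const_mul
          (n : ℝ)⁻¹
      have h2 : Measurable (fun p : X × X => (N k p.1, p)) :=
        ((((hL1 k).max measurable_const)).comp measurable_fst).prodMk measurable_id
      exact h1.comp h2
    · intro p
      exact mul_nonneg (inv_pos.2 (hNpos k _)).le
        (Finset.sum_nonneg fun m _ => (hg m k).nonneg p)
    · intro x z hxz
      simp only [h]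
      rw [Finset.sum_eq_zero fun m _ => (hg m k).supp x z hxz, mul_zero]
    · intro x
      have h1 := (hasSum_sum (s := Finset.range (N k x)) fun m _ => (hg m k).sum x).mul_left
        (N k x : ℝ)⁻¹
      rw [Finset.sum_const, Finset.card_range, nsmul_eq_mul, mul_one,
        inv_mul_cancel₀ (hNpos k x).ne'] at h1
      exact h1
  have hv : ∀ k x, (hh k).v x = (N k x : ℝ)⁻¹ • ∑ m ∈ Finset.range (N k x), (hg m k).v x := by
    intro k x
    ext z
    rw [lp.coeFn_smul, Pi.smul_apply, lp.coeFn_sum, Finset.sum_apply]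
    rfl
  refine ⟨h, hh, ?_⟩
  intro x y hxy c hc hyp ε hε
  obtain ⟨i, rfl⟩ := (hδE _ _).1 hxy
  obtain ⟨j, hj⟩ := (hδE _ _).1 (hE.symm hxy)
  obtain ⟨m0, hm0⟩ := eventually_atTop.1 hyp
  have hlamc : ∀ m, m0 ≤ m → lam m i x ≤ c := by
    intro m hm
    apply le_of_forall_pos_le_add
    intro η hη
    refine limsup_le_of_le ?_ (hm0 m hm η hη)
    exact isCoboundedUnder_le_of_le atTop (x := 0) fun k => (hg m k).DD_nonneg _ _
  obtain ⟨m2, hm2⟩ := exists_nat_one_div_lt (half_pos hε)
  set m1 := max (max m0 m2) i with hm1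
  obtain ⟨R, hR⟩ := exists_nat_gt ((2 * (m1 : ℝ) + 2 * ((i + j + 1 : ℕ) : ℝ)) / (ε / 2))
  filter_upwards [hL4 x (max R 1)] with k hk
  have hNL : N k x = L k x := max_eq_left ((le_max_right _ _).trans hk)
  have hRN : (R : ℝ) ≤ N k x := by
    rw [hNL]; exact_mod_cast (le_max_left _ _).trans hk
  have l1 := hL3 k x i
  have l2 := hL3 k (δ i x) j
  rw [hj] at l2
  have est := avg_est (fun m => (hg m k).v x) (fun m => (hg m k).v (δ i x))
    (fun m => ((hg m k).v_norm _).le) (hN1 k x) (hN1 k (δ i x)) (C := i + j + 1)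
    (by simp only [N]; omega) (by simp only [N]; omega)
  rw [(hh k).DD_eq, hv, hv]
  refine est.trans ?_
  have hsum : ∑ m ∈ Finset.range (N k x), ‖(hg m k).v x - (hg m k).v (δ i x)‖ ≤
      (N k x : ℝ) * (c + ε / 2) + 2 * m1 := by
    have h1 : ∀ m ∈ Finset.range (N k x), ‖(hg m k).v x - (hg m k).v (δ i x)‖ ≤
        (c + ε / 2) + if m ∈ Finset.range m1 then 2 else 0 := by
      intro m hm
      rw [← (hg m k).DD_eq]
      split_ifs with hm'
      · have := (hg m k).DD_le x (δ i x)
        linarith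
      · rw [Finset.mem_range, not_lt] at hm'
        rw [Finset.mem_range, hNL] at hm
        have h2 := hMgood k x m (hm.trans_le (hL2 k x)) i (by omega)
        have h3 := hlamc m (by omega)
        have h4 : 1 / ((m : ℝ) + 1) ≤ 1 / ((m2 : ℝ) + 1) := by
          apply one_div_le_one_div_of_le (by positivity)
          have : (m2 : ℝ) ≤ m := by exact_mod_cast (by omega : m2 ≤ m)
          linarith
        simp only [a] at h2
        linarith
    refine (Finset.sum_le_sum h1).trans ?_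
    rw [Finset.sum_add_distrib, Finset.sum_const, Finset.card_range, nsmul_eq_mul,
      Finset.sum_ite_mem, Finset.sum_const, nsmul_eq_mul]
    have h5 : ((Finset.range (N k x) ∩ Finset.range m1).card : ℝ) ≤ m1 := by
      have := Finset.card_le_card
        (Finset.inter_subset_right (s₁ := Finset.range (N k x)) (s₂ := Finset.range m1))
      rw [Finset.card_range] at this
      exact_mod_cast this
    linarith
  have hp := hNpos k x
  rw [div_lt_iff₀ (half_pos hε)] at hR
  rw [inv_mul_le_iff₀ hp]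
  have : (R : ℝ) * (ε / 2) ≤ (N k x : ℝ) * (ε / 2) := by gcongr
  nlinarith

end Pool.Agent.H546Z.Am
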