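import Mathlib

set_option autoImplicit false

namespace Pool.Agent.H546Z.AmDefs

/-- `E` is a countable Borel equivalence relation on `X`. -/
def IsCBER {X : Type} [MeasurableSpace X] (E : X → X → Prop) : Prop :=
  Equivalence E ∧ MeasurableSet {p : X × X | E p.1 p.2} ∧ ∀ x, Set.Countable {y : X | E x y}

/-- `E` is `F`-amenable: there are Borel maps `f n : E → [0, ∞)` such that every `f n (x, ·)`
has `ℓ¹`-norm one on the class of `x`, and the `ℓ¹`-distance of `f n (x, ·)` and `f n (y, ·)`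
tends to zero along `F` whenever `x E y`. -/
def IsAmenable {X : Type} [MeasurableSpace X] (E : X → X → Prop) (hE : Equivalence E)
    (F : Filter ℕ) : Prop :=
  ∃ f : ℕ → {p : X × X // E p.1 p.2} → ℝ, (∀ n, Measurable (f n)) ∧ (∀ n p, 0 ≤ f n p) ∧
    (∀ n x, HasSum (fun z : {z : X // E x z} => f n ⟨(x, z.1), z.2⟩) 1) ∧
    ∀ x y, ∀ h : E x y, Filter.Tendsto
      (fun n => ∑' z : {z : X // E x z},
        |f n ⟨(x, z.1), z.2⟩ - f n ⟨(y, z.1), hE.trans (hE.symm h) z.2⟩|) F (nhds 0)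

/-- `Fr` is a system of iterated Fréchet filters for the pairing `π`: `Fr 1` is the cofinite
filter, `Fr (β + 1) = Fr 1 ⊗ Fr β`, and at a countable limit `l`,
`Fr l = Fr 1 ⊗ (Fr (s m))ₘ` for some strictly increasing sequence `s` with supremum `l`. -/
def IsFrechetSystem (π : ℕ × ℕ ≃ ℕ) (Fr : Ordinal.{0} → Filter ℕ) : Prop :=
  Fr 1 = Filter.cofinite ∧
  (∀ β : Ordinal.{0}, 1 ≤ β → β.card ≤ Cardinal.aleph0 → ∀ A : Set ℕ,
    A ∈ Fr (β + 1) ↔ {m : ℕ | {n : ℕ | π (m, n) ∈ A} ∈ Fr β} ∈ Filter.cofinite) ∧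
  ∀ l : Ordinal.{0}, Order.IsSuccLimit l → l.card ≤ Cardinal.aleph0 →
    ∃ s : ℕ → Ordinal.{0}, StrictMono s ∧ (∀ k, 1 ≤ s k) ∧ (⨆ k, s k) = l ∧ ∀ A : Set ℕ,
      A ∈ Fr l ↔ {m : ℕ | {n : ℕ | π (m, n) ∈ A} ∈ Fr (s m)} ∈ Filter.cofinite

end Pool.Agent.H546Z.AmDefs
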