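import Mathlib
import Pool.Agent.H546Z.AmCore
import Pool.Agent.H546Z.AmDefs

set_option autoImplicit false

namespace Pool.Agent.H546Z.Am

open Filter Topology Pool.Agent.H546Z.AmDefs

variable {X : Type}

/-- every family indexed along `F` can be replaced by a sequence that is at least as invariant -/
def Dom [MeasurableSpace X] (E : X → X → Prop) (F : Filter ℕ) : Prop :=
  ∀ f : ℕ → X × X → ℝ, (∀ n, Asg E (f n)) → ∃ g : ℕ → X × X → ℝ, (∀ k, Asg E (g k)) ∧
    ∀ x y, E x y → ∀ c : ℝ, 0 ≤ c → (∀ᶠ n in F, DD (f n) x y ≤ c) →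
      ∀ ε > 0, ∀ᶠ k in atTop, DD (g k) x y ≤ c + ε

theorem dom_cofinite [MeasurableSpace X] (E : X → X → Prop) : Dom E cofinite := by
  intro f hf
  refine ⟨f, hf, fun x y _ c _ h ε hε => ?_⟩
  rw [Nat.cofinite_eq_atTop] at h
  filter_upwards [h] with k hk
  linarith

theorem dom_step [MeasurableSpace X] [StandardBorelSpace X] {E : X → X → Prop} (hE : IsCBER E)
    (p : ℕ → ℕ → ℕ) (G : ℕ → Filter ℕ) (hG : ∀ m, Dom E (G m)) (F : Filter ℕ)
    (hF : ∀ A : Set ℕ, A ∈ F ↔ {m : ℕ | {n : ℕ | p m n ∈ A} ∈ G m} ∈ cofinite) : Dom E F := by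
  intro f hf
  obtain ⟨δ, hδ, hδE⟩ := Pool.Agent.Helper281.LN.cber_enum E hE.1 hE.2.1 hE.2.2
  choose g hg1 hg2 using fun m => hG m (fun n => f (p m n)) (fun n => hf _)
  obtain ⟨h, hh1, hh2⟩ := two_step hE.1 hδ hδE g hg1
  refine ⟨h, hh1, fun x y hxy c hc hev => hh2 x y hxy c hc ?_⟩
  have h1 := (hF _).1 hev
  rw [Nat.cofinite_eq_atTop] at h1
  filter_upwards [h1] with m hm
  exact hg2 m x y hxy c hc hm

theorem cases_ord {α : Ordinal.{0}} (h : 1 ≤ α) :
    α = 1 ∨ (∃ β, 1 ≤ β ∧ α = β + 1) ∨ Order.IsSuccLimit α := by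
  rcases Ordinal.zero_or_succ_or_isSuccLimit α with rfl | ⟨β, rfl⟩ | hl
  · simp at h
  · rcases eq_zero_or_pos β with rfl | hβ
    · left; simp
    · right; left
      exact ⟨β, Order.one_le_iff_pos.2 hβ, Order.succ_eq_add_one β⟩
  · exact Or.inr (Or.inr hl)

theorem dom_all [MeasurableSpace X] [StandardBorelSpace X] {E : X → X → Prop} (hE : IsCBER E)
    {π : ℕ × ℕ ≃ ℕ} {Fr : Ordinal.{0} → Filter ℕ} (hFr : IsFrechetSystem π Fr)
    (α : Ordinal.{0}) : 1 ≤ α → α.card ≤ Cardinal.aleph0 → Dom E (Fr α) := by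
  induction α using WellFoundedLT.induction with
  | _ α ih =>
    intro h1 hc
    rcases cases_ord h1 with rfl | ⟨β, hβ, rfl⟩ | hl
    · rw [hFr.1]; exact dom_cofinite E
    · have hβc : β.card ≤ Cardinal.aleph0 := (Ordinal.card_le_card le_self_add).trans hc
      exact dom_step hE (fun m n => π (m, n)) (fun _ => Fr β)
        (fun _ => ih β (lt_add_one β) hβ hβc) _ (hFr.2.1 β hβ hβc)
    · obtain ⟨s, hs1, hs2, hs3, hs4⟩ := hFr.2.2 α hl hc
      have hlt : ∀ k, s k < α := fun k =>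
        (hs1 (Nat.lt_succ_self k)).trans_le (hs3 ▸ Ordinal.le_iSup s (k + 1))
      exact dom_step hE (fun m n => π (m, n)) (fun m => Fr (s m))
        (fun m => ih _ (hlt m) (hs2 m) ((Ordinal.card_le_card (hlt m).le).trans hc)) _ hs4

theorem exists_tendsto {π : ℕ × ℕ ≃ ℕ} {Fr : Ordinal.{0} → Filter ℕ}
    (hFr : IsFrechetSystem π Fr) (α : Ordinal.{0}) (h1 : 1 ≤ α)
    (hc : α.card ≤ Cardinal.aleph0) : ∃ φ : ℕ → ℕ, Tendsto φ (Fr α) atTop := by
  have key : ∀ (F : Filter ℕ) (G : ℕ → Filter ℕ),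
      (∀ A : Set ℕ, A ∈ F ↔ {m : ℕ | {n : ℕ | π (m, n) ∈ A} ∈ G m} ∈ cofinite) →
      Tendsto (fun n => (π.symm n).1) F atTop := by
    intro F G hF
    rw [tendsto_atTop]
    intro r
    refine (hF _).2 ?_
    rw [Nat.cofinite_eq_atTop]
    filter_upwards [eventually_ge_atTop r] with m hm
    apply univ_mem'
    intro n
    simpa using hm
  rcases cases_ord h1 with rfl | ⟨β, hβ, rfl⟩ | hl
  · exact ⟨id, by rw [hFr.1, Nat.cofinite_eq_atTop]; exact tendsto_id⟩
  · have hβc : β.card ≤ Cardinal.aleph0 := (Ordinal.card_le_card le_self_add).trans hc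
    exact ⟨_, key _ (fun _ => Fr β) (hFr.2.1 β hβ hβc)⟩
  · obtain ⟨s, -, -, -, hs4⟩ := hFr.2.2 α hl hc
    exact ⟨_, key _ (fun m => Fr (s m)) hs4⟩

/-- amenability along a filter, in normalised form -/
def Amen [MeasurableSpace X] (E : X → X → Prop) (F : Filter ℕ) : Prop :=
  ∃ f : ℕ → X × X → ℝ, (∀ n, Asg E (f n)) ∧
    ∀ x y, E x y → Tendsto (fun n => DD (f n) x y) F (𝓝 0)

theorem tendsto_of_le [MeasurableSpace X] {E : X → X → Prop} {g : ℕ → X × X → ℝ}
    (hg : ∀ k, Asg E (g k)) {x y : X} (h : ∀ ε > 0, ∀ᶠ k in atTop, DD (g k) x y ≤ 0 + ε) :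
    Tendsto (fun k => DD (g k) x y) atTop (𝓝 0) := by
  rw [Metric.tendsto_nhds]
  intro ε hε
  filter_upwards [h (ε / 2) (half_pos hε)] with k hk
  rw [Real.dist_eq, sub_zero, abs_of_nonneg ((hg k).DD_nonneg x y)]
  linarith

theorem Amen.of_dom [MeasurableSpace X] {E : X → X → Prop} {F : Filter ℕ} (hD : Dom E F)
    (h : Amen E F) : Amen E atTop := by
  obtain ⟨f, hf, hf'⟩ := h
  obtain ⟨g, hg, hg'⟩ := hD f hf
  refine ⟨g, hg, fun x y hxy => tendsto_of_le hg fun ε hε => ?_⟩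
  have h1 : ∀ᶠ n in F, DD (f n) x y ≤ ε / 2 :=
    (hf' x y hxy).eventually (eventually_le_nhds (half_pos hε))
  filter_upwards [hg' x y hxy (ε / 2) (half_pos hε).le h1 (ε / 2) (half_pos hε)] with k hk
  linarith

theorem Amen.comp [MeasurableSpace X] {E : X → X → Prop} {F : Filter ℕ} {φ : ℕ → ℕ}
    (hφ : Tendsto φ F atTop) (h : Amen E atTop) : Amen E F := by
  obtain ⟨f, hf, hf'⟩ := h
  exact ⟨fun n => f (φ n), fun n => hf _, fun x y hxy => (hf' x y hxy).comp hφ⟩

theorem Amen.union [MeasurableSpace X] [StandardBorelSpace X] {E : ℕ → X → X → Prop}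
    (hE : IsCBER (fun x y => ∃ i, E i x y)) (hmono : ∀ i x y, E i x y → E (i + 1) x y)
    (h : ∀ i, Amen (E i) atTop) : Amen (fun x y => ∃ i, E i x y) atTop := by
  choose g hg hg' using h
  obtain ⟨δ, hδ, hδE⟩ := Pool.Agent.Helper281.LN.cber_enum _ hE.1 hE.2.1 hE.2.2
  have hg1 : ∀ m k, Asg (fun x y => ∃ i, E i x y) (g m k) := fun m k =>
    ⟨(hg m k).meas, (hg m k).nonneg, fun x z hxz => (hg m k).supp x z fun h => hxz ⟨m, h⟩,
      (hg m k).sum⟩
  obtain ⟨h, hh1, hh2⟩ := two_step hE.1 hδ hδE g hg1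
  refine ⟨h, hh1, fun x y hxy => tendsto_of_le hh1 (hh2 x y hxy 0 le_rfl ?_)⟩
  obtain ⟨i, hi⟩ := hxy
  filter_upwards [eventually_ge_atTop i] with m hm ε hε
  have hm' : E m x y := by
    induction m, hm using Nat.le_induction with
    | base => exact hi
    | succ m _ ih => exact hmono m x y ih
  rw [zero_add]
  exact (hg' m x y hm').eventually (eventually_le_nhds hε)

theorem Asg.DD_sub [MeasurableSpace X] {E : X → X → Prop} (hE : Equivalence E) {f : X × X → ℝ}
    (h : Asg E f) {x y : X} (hxy : E x y) :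
    ∑' z : {z : X // E x z}, |f (x, z.1) - f (y, z.1)| = DD f x y := by
  refine tsum_subtype_eq_of_support_subset (s := {z | E x z})
    (f := fun z => |f (x, z) - f (y, z)|) ?_
  intro z hz
  by_contra hn
  have h2 : ¬ E y z := fun h3 => hn (hE.trans hxy h3)
  apply hz
  simp [h.supp _ _ hn, h.supp _ _ h2]

theorem Asg.sum_sub [MeasurableSpace X] {E : X → X → Prop} {f : X × X → ℝ}
    (h : Asg E f) (x : X) : HasSum (fun z : {z : X // E x z} => f (x, z.1)) 1 := by
  refine (hasSum_subtype_iff_of_support_subset (s := {z | E x z})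
    (f := fun z => f (x, z)) ?_).2 (h.sum x)
  intro z hz
  by_contra hn
  exact hz (h.supp _ _ hn)

theorem amen_iff [MeasurableSpace X] {E : X → X → Prop} (hE : IsCBER E) (F : Filter ℕ) :
    Amen E F ↔ IsAmenable E hE.1 F := by
  classical
  constructor
  · rintro ⟨f, hf, hf'⟩
    refine ⟨fun n p => f n p.1, fun n => (hf n).meas.comp measurable_subtype_coe,
      fun n p => (hf n).nonneg _, fun n x => (hf n).sum_sub x, fun x y hxy => ?_⟩
    simp only [(hf _).DD_sub hE.1 hxy]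
    exact hf' x y hxy
  · rintro ⟨f, h1, h2, h3, h4⟩
    let f' : ℕ → X × X → ℝ := fun n p => if h : E p.1 p.2 then f n ⟨p, h⟩ else 0
    have hf' : ∀ n, Asg E (f' n) := by
      intro n
      refine ⟨?_, ?_, ?_, ?_⟩
      · exact Measurable.dite (s := {p : X × X | E p.1 p.2}) (h1 n) measurable_const hE.2.1
      · intro p
        simp only [f']
        split_ifs
        · exact h2 _ _
        · exact le_rfl
      · intro x z hxz
        simp only [f']
        rw [dif_neg hxz]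
      · intro x
        refine (hasSum_subtype_iff_of_support_subset (s := {z | E x z})
          (f := fun z => f' n (x, z)) ?_).1 ?_
        · intro z hz
          by_contra hn
          apply hz
          simp only [f']
          exact dif_neg hn
        · have e : (fun z : {z : X // E x z} => f' n (x, z.1)) =
              fun z : {z : X // E x z} => f n ⟨(x, z.1), z.2⟩ := by
            funext z
            exact dif_pos z.2
          have h5 := h3 n x
          rw [← e] at h5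
          exact h5
    refine ⟨f', hf', fun x y hxy => ?_⟩
    convert h4 x y hxy using 2 with n
    rw [← (hf' n).DD_sub hE.1 hxy]
    congr 1
    funext z
    simp only [f']
    rw [dif_pos z.2, dif_pos (hE.1.trans (hE.1.symm hxy) z.2)]

theorem amen_iff' [MeasurableSpace X] {E : X → X → Prop} (hE : IsCBER E) (F : Filter ℕ) :
    Amen E F ↔ ∃ f : ℕ → X × X → ℝ, (∀ n, Measurable (f n)) ∧ (∀ n p, 0 ≤ f n p) ∧
        (∀ n x, HasSum (fun y : {y : X // E x y} => f n (x, y.1)) 1) ∧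
        (∀ x y, E x y → Filter.Tendsto
          (fun n => ∑' z : {z : X // E x z}, |f n (x, z.1) - f n (y, z.1)|) F (nhds 0)) := by
  constructor
  · rintro ⟨f, hf, hf'⟩
    refine ⟨f, fun n => (hf n).meas, fun n => (hf n).nonneg, fun n x => (hf n).sum_sub x,
      fun x y hxy => ?_⟩
    simp only [(hf _).DD_sub hE.1 hxy]
    exact hf' x y hxy
  · rintro ⟨f, h1, h2, h3, h4⟩
    rw [amen_iff hE]
    exact ⟨fun n p => f n p.1, fun n => (h1 n).comp measurable_subtype_coe, fun n p => h2 n _,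
      h3, h4⟩

theorem collapse [MeasurableSpace X] [StandardBorelSpace X] {E : X → X → Prop} (hE : IsCBER E)
    {π : ℕ × ℕ ≃ ℕ} {Fr : Ordinal.{0} → Filter ℕ} (hFr : IsFrechetSystem π Fr)
    {α : Ordinal.{0}} (h1 : 1 ≤ α) (hc : α.card ≤ Cardinal.aleph0) :
    Amen E (Fr α) ↔ Amen E atTop := by
  refine ⟨Amen.of_dom (dom_all hE hFr α h1 hc), fun h => ?_⟩
  obtain ⟨φ, hφ⟩ := exists_tendsto hFr α h1 hc
  exact h.comp hφ

theorem exists_seq (l : Ordinal.{0}) (hl : Order.IsSuccLimit l) (hc : l.card ≤ Cardinal.aleph0) :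
    ∃ s : ℕ → Ordinal.{0}, StrictMono s ∧ (∀ k, 1 ≤ s k) ∧ (⨆ k, s k) = l ∧ ∀ k, s k < l := by
  have hcount : (Set.Iio l).Countable := by
    rw [← Cardinal.le_aleph0_iff_set_countable, Cardinal.mk_Iio_ordinal]
    exact Cardinal.lift_le_aleph0.2 hc
  obtain ⟨e, he⟩ := hcount.exists_eq_range ⟨0, hl.bot_lt⟩
  have he1 : ∀ k, e k < l := fun k => by
    have : e k ∈ Set.Iio l := he ▸ Set.mem_range_self k
    exact this
  let s : ℕ → Ordinal.{0} := fun k => Nat.rec 1 (fun k a => max a (e k) + 1) k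
  have hs : ∀ k, s (k + 1) = max (s k) (e k) + 1 := fun _ => rfl
  have hmono : StrictMono s := strictMono_nat_of_lt_succ fun k => by
    rw [hs]; exact (le_max_left _ _).trans_lt (lt_add_one _)
  have hlt : ∀ k, s k < l := by
    intro k
    induction k with
    | zero =>
      show (1 : Ordinal.{0}) < l
      simpa using hl.add_one_lt hl.bot_lt
    | succ k ih => rw [hs]; exact hl.add_one_lt (max_lt ih (he1 k))
  refine ⟨s, hmono, fun k => hmono.monotone (Nat.zero_le k), ?_, hlt⟩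
  apply le_antisymm (Ordinal.iSup_le fun k => (hlt k).le)
  apply le_of_forall_lt
  intro a ha
  have : a ∈ Set.range e := he ▸ ha
  obtain ⟨k, rfl⟩ := this
  refine lt_of_lt_of_le ?_ (Ordinal.le_iSup s (k + 1))
  rw [hs]
  exact (le_max_right _ _).trans_lt (lt_add_one _)

/-- Systems of iterated Fréchet filters exist for every pairing. -/
theorem exists_system (π : ℕ × ℕ ≃ ℕ) : ∃ Fr, IsFrechetSystem π Fr := by
  classical
  choose s hs1 hs2 hs3 hs4 using exists_seq
  let P : (ℕ → Filter ℕ) → Filter ℕ := fun G =>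
    Filter.bind cofinite fun m => Filter.map (fun n => π (m, n)) (G m)
  let Fr : Ordinal.{0} → Filter ℕ := fun o => Ordinal.limitRecOn o cofinite
    (fun β F => if β = 0 then cofinite else P fun _ => F)
    (fun l hl ih => if hc : l.card ≤ Cardinal.aleph0 then
      P fun m => ih (s l hl hc m) (hs4 l hl hc m) else cofinite)
  have h1 : ∀ β, Fr (β + 1) = if β = 0 then cofinite else P fun _ => Fr β := fun β =>
    Ordinal.limitRecOn_add_one _ _ _ _
  refine ⟨Fr, ?_, ?_, ?_⟩
  · have := h1 0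
    rwa [zero_add, if_pos rfl] at this
  · intro β hβ _ A
    rw [h1, if_neg (Order.one_le_iff_pos.1 hβ).ne']
    rfl
  · intro l hl hc
    refine ⟨s l hl hc, hs1 l hl hc, hs2 l hl hc, hs3 l hl hc, fun A => ?_⟩
    have h2 : Fr l = P fun m => Fr (s l hl hc m) := by
      simp only [Fr]
      rw [Ordinal.limitRecOn_limit _ _ _ _ hl, dif_pos hc]
    rw [h2]
    rfl

end Pool.Agent.H546Z.Am
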