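import Mathlib

set_option autoImplicit false

namespace Pool.Agent.H546Z.BMDefs

open Filter Topology

variable {G : Type} [Group G]

/-- `d` is an integer-valued, left-invariant, proper metric on the group `G`. -/
structure IsIntProperMetric (d : G → G → ℝ) : Prop where
  eq_zero_iff : ∀ x y, d x y = 0 ↔ x = y
  symm : ∀ x y, d x y = d y x
  triangle : ∀ x y z, d x z ≤ d x y + d y z
  integer : ∀ x y, ∃ n : ℤ, d x y = n
  invariant : ∀ g x y, d (g * x) (g * y) = d x y
  proper : ∀ (x : G) (r : ℝ), {y | d x y ≤ r}.Finite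

/-- The metric-functional boundary: pointwise limits of `y ↦ d (x n) y - d (x n) 1` along
sequences with `d (x n) 1 → ∞`. -/
def boundary (d : G → G → ℝ) : Set (G → ℝ) :=
  {f | ∃ x : ℕ → G, Tendsto (fun n => d (x n) 1) atTop atTop ∧
    ∀ y, Tendsto (fun n => d (x n) y - d (x n) 1) atTop (𝓝 (f y))}

end Pool.Agent.H546Z.BMDefs
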