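import Mathlib
import Pool.Agent.H546Z.BMDefs

set_option autoImplicit false

namespace Pool.Agent.H546Z.BM

open Filter Topology Pointwise Pool.Agent.H546Z.BMDefs

variable {G : Type} [Group G] {d : G → G → ℝ}

theorem d_nonneg (hd : IsIntProperMetric d) (x y : G) : 0 ≤ d x y := by
  have h1 := hd.triangle x y x
  rw [(hd.eq_zero_iff x x).2 rfl, hd.symm y x] at h1
  linarith

theorem d_inv (hd : IsIntProperMetric d) (z y : G) : d z⁻¹ y = d 1 (z * y) := by
  rw [← hd.invariant z z⁻¹ y, mul_inv_cancel]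

theorem ev_eq {u : ℕ → ℝ} {r : ℝ} (hu : ∀ n, ∃ k : ℤ, u n = k) (h : Tendsto u atTop (𝓝 r)) :
    ∀ᶠ n in atTop, u n = r := by
  obtain ⟨N, hN⟩ := (Metric.tendsto_atTop.1 h) (1 / 2) (by norm_num)
  have h1 : ∀ n ≥ N, u n = u N := by
    intro n hn
    obtain ⟨k, hk⟩ := hu n
    obtain ⟨l, hl⟩ := hu N
    have a1 := hN n hn
    have a2 := hN N le_rfl
    rw [Real.dist_eq, abs_lt] at a1 a2
    rw [hk] at a1 ⊢
    rw [hl] at a2 ⊢
    have b1 : (k : ℝ) < l + 1 := by linarith [a1.2, a2.1]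
    have b2 : (l : ℝ) < k + 1 := by linarith [a1.1, a2.2]
    have c1 : k < l + 1 := by exact_mod_cast b1
    have c2 : l < k + 1 := by exact_mod_cast b2
    have : k = l := by omega
    rw [this]
  have h2 : Tendsto u atTop (𝓝 (u N)) :=
    tendsto_const_nhds.congr' ((eventually_ge_atTop N).mono fun n hn => (h1 n hn).symm)
  have h3 := tendsto_nhds_unique h h2
  filter_upwards [eventually_ge_atTop N] with n hn
  rw [h1 n hn, h3]

theorem bd_int (hd : IsIntProperMetric d) {f : G → ℝ} (hf : f ∈ boundary d) (y : G) :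
    ∃ k : ℤ, f y = k := by
  obtain ⟨x, -, hx⟩ := hf
  have hint : ∀ n, ∃ k : ℤ, d (x n) y - d (x n) 1 = k := by
    intro n
    obtain ⟨k, hk⟩ := hd.integer (x n) y
    obtain ⟨l, hl⟩ := hd.integer (x n) 1
    exact ⟨k - l, by rw [hk, hl]; push_cast; ring⟩
  obtain ⟨n, hn⟩ := (ev_eq hint (hx y)).exists
  rw [← hn]
  exact hint n

theorem bd_one {f : G → ℝ} (hf : f ∈ boundary d) : f 1 = 0 := by
  obtain ⟨x, -, hx⟩ := hf
  have := hx 1
  simp only [sub_self] at this
  exact tendsto_nhds_unique this tendsto_const_nhds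

/-- the shift of a functional -/
def sh (s : G) (f : G → ℝ) : G → ℝ := fun y => f (s * y) - f s

theorem sh_sh (s t : G) (f : G → ℝ) : sh t (sh s f) = sh (s * t) f := by
  funext y
  simp only [sh, mul_assoc]
  ring

theorem sh_one {f : G → ℝ} (hf : f 1 = 0) : sh 1 f = f := by
  funext y
  simp [sh, hf]

theorem sh_mem (hd : IsIntProperMetric d) (s : G) {f : G → ℝ} (hf : f ∈ boundary d) :
    sh s f ∈ boundary d := by
  obtain ⟨x, hx1, hx2⟩ := hf
  have e : ∀ n y, d (s⁻¹ * x n) y = d (x n) (s * y) := by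
    intro n y
    rw [← hd.invariant s, mul_inv_cancel_left]
  refine ⟨fun n => s⁻¹ * x n, ?_, fun y => ?_⟩
  · simp only [e, mul_one]
    refine tendsto_atTop_mono (fun n => ?_) (tendsto_atTop_add_const_right _ (-d s 1) hx1)
    have := hd.triangle (x n) s 1
    linarith
  · simp only [e, mul_one]
    have := (hx2 (s * y)).sub (hx2 s)
    simp only [sub_sub_sub_cancel_right] at this
    exact this

theorem approx (hd : IsIntProperMetric d) (T : Set G) (hT : T.Finite) :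
    ∀ᶠ z in cofinite, ∃ f ∈ boundary d, ∀ y ∈ T, d 1 (z * y) - d 1 z = f y := by
  by_contra hcon
  rw [eventually_cofinite] at hcon
  have hcount : Countable G := by
    rw [← Set.countable_univ_iff]
    refine (Set.countable_iUnion fun n : ℕ => (hd.proper 1 n).countable).mono ?_
    intro y _
    obtain ⟨n, hn⟩ := exists_nat_ge (d 1 y)
    exact Set.mem_iUnion.2 ⟨n, hn⟩
  let z : ℕ ↪ _ := Set.Infinite.natEmbedding _ hcon
  have hz : Function.Injective (fun n => (z n).1) :=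
    Subtype.val_injective.comp z.injective
  let u : ℕ → G → ℝ := fun n y => d 1 ((z n).1 * y) - d 1 (z n).1
  have hK : IsCompact (Set.pi Set.univ fun y : G => Set.Icc (-d 1 y) (d 1 y)) :=
    isCompact_univ_pi fun y => isCompact_Icc
  have hu : ∀ n, u n ∈ Set.pi Set.univ fun y : G => Set.Icc (-d 1 y) (d 1 y) := by
    intro n y _
    have h1 := hd.triangle 1 (z n).1 ((z n).1 * y)
    have h2 := hd.triangle 1 ((z n).1 * y) (z n).1
    have h3 := hd.invariant (z n).1 1 y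
    rw [mul_one] at h3
    rw [hd.symm ((z n).1 * y)] at h2
    constructor <;> simp only [u] <;> linarith
  obtain ⟨f, -, φ, hφ, hlim⟩ := hK.tendsto_subseq hu
  rw [tendsto_pi_nhds] at hlim
  have hf : f ∈ boundary d := by
    refine ⟨fun n => ((z (φ n)).1)⁻¹, ?_, fun y => ?_⟩
    · simp only [d_inv hd, mul_one]
      rw [tendsto_atTop]
      intro r
      have hfin := (hd.proper 1 r).preimage
        (f := fun n => (z (φ n)).1) (hz.comp hφ.injective).injOn
      rw [← Nat.cofinite_eq_atTop, eventually_cofinite]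
      exact hfin.subset fun n hn => (not_le.1 hn).le
    · simp only [d_inv hd, mul_one]
      exact hlim y
  have hev : ∀ᶠ n in atTop, ∀ y ∈ T, u (φ n) y = f y := by
    rw [eventually_all_finite hT]
    intro y _
    refine ev_eq (fun n => ?_) (hlim y)
    obtain ⟨k, hk⟩ := hd.integer 1 ((z (φ n)).1 * y)
    obtain ⟨l, hl⟩ := hd.integer 1 (z (φ n)).1
    exact ⟨k - l, by simp only [u]; rw [hk, hl]; push_cast; ring⟩
  obtain ⟨n, hn⟩ := hev.exists
  exact (z (φ n)).2 ⟨f, hf, hn⟩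

theorem exists_psi (hd : IsIntProperMetric d) (hB : (boundary d).Finite) [Infinite G] :
    ∃ (ψ : G → G → ℝ) (c : G → ℝ), (∀ z, ψ z ∈ boundary d) ∧ (∀ z, d 1 z = ψ z z + c z) ∧
      ∀ s, ∀ᶠ z in cofinite, ψ (z * s) = ψ z ∧ c (z * s) = c z := by
  classical
  obtain ⟨z0, f0, hf0, -⟩ := (approx hd ∅ Set.finite_empty).exists
  obtain ⟨T, hT, hsep⟩ : ∃ T : Set G, T.Finite ∧ ∀ f ∈ boundary d, ∀ g ∈ boundary d,
      (∀ y ∈ T, f y = g y) → f = g := by
    have h1 : ∀ p : (G → ℝ) × (G → ℝ), ∃ y, p.1 y = p.2 y → p.1 = p.2 := by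
      intro p
      by_cases h : p.1 = p.2
      · exact ⟨1, fun _ => h⟩
      · obtain ⟨y, hy⟩ := Function.ne_iff.1 h
        exact ⟨y, fun h' => absurd h' hy⟩
    choose w hw using h1
    exact ⟨w '' (boundary d ×ˢ boundary d), (hB.prod hB).image w, fun f hf g hg h =>
      hw (f, g) (h _ ⟨(f, g), ⟨hf, hg⟩, rfl⟩)⟩
  let F : G → G → ℝ := fun z =>
    if h : ∃ f ∈ boundary d, ∀ y ∈ T, d 1 (z * y) - d 1 z = f y then h.choose else f0
  have hF1 : ∀ z, F z ∈ boundary d := by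
    intro z
    simp only [F]
    split_ifs with h
    · exact h.choose_spec.1
    · exact hf0
  have hF2 : ∀ z, ∀ f ∈ boundary d, (∀ y ∈ T, d 1 (z * y) - d 1 z = f y) → F z = f := by
    intro z f hf h
    have hex : ∃ f ∈ boundary d, ∀ y ∈ T, d 1 (z * y) - d 1 z = f y := ⟨f, hf, h⟩
    simp only [F]
    rw [dif_pos hex]
    exact hsep _ hex.choose_spec.1 _ hf fun y hy => (hex.choose_spec.2 y hy).symm.trans (h y hy)
  refine ⟨fun z => sh z⁻¹ (F z), fun z => d 1 z - sh z⁻¹ (F z) z, fun z => sh_mem hd _ (hF1 z),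
    fun z => by ring, fun s => ?_⟩
  filter_upwards [approx hd (insert s (T ∪ (fun y => s * y) '' T))
    ((hT.union (hT.image _)).insert s)] with z hz
  obtain ⟨f, hf, hz⟩ := hz
  have e1 : F z = f := hF2 z f hf fun y hy => hz y (Or.inr (Or.inl hy))
  have e3 := hz s (Or.inl rfl)
  have e2 : F (z * s) = sh s f := by
    refine hF2 _ _ (sh_mem hd s hf) fun y hy => ?_
    have := hz (s * y) (Or.inr (Or.inr ⟨y, hy, rfl⟩))
    rw [mul_assoc, sh]
    linarith
  have e4 : sh (z * s)⁻¹ (F (z * s)) = sh z⁻¹ (F z) := by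
    rw [e1, e2, sh_sh, mul_inv_rev, mul_inv_cancel_left]
  refine ⟨e4, ?_⟩
  rw [e4, e1]
  simp only [sh, inv_mul_cancel_left, inv_mul_cancel, bd_one hf]
  linarith

theorem finite_range_of_ev [hG : Group.FG G] {c : G → ℝ}
    (hc : ∀ s, ∀ᶠ z in cofinite, c (z * s) = c z) : (Set.range c).Finite := by
  obtain ⟨S, hS, hSf⟩ := Group.fg_iff.1 hG
  have hS' : (S ∪ S⁻¹).Finite := hSf.union hSf.inv
  have hK : {z | ¬ ∀ s ∈ S ∪ S⁻¹, c (z * s) = c z}.Finite := by
    rw [← eventually_cofinite, eventually_all_finite hS']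
    exact fun s _ => hc s
  refine (((hK.mul hS').insert 1).image c).subset ?_
  have step : ∀ z s, s ∈ S ∪ S⁻¹ →
      c z ∈ c '' insert 1 ({z | ¬ ∀ s ∈ S ∪ S⁻¹, c (z * s) = c z} * (S ∪ S⁻¹)) →
      c (z * s) ∈ c '' insert 1 ({z | ¬ ∀ s ∈ S ∪ S⁻¹, c (z * s) = c z} * (S ∪ S⁻¹)) := by
    intro z s hs hz
    by_cases h : ∀ s ∈ S ∪ S⁻¹, c (z * s) = c z
    · rw [h s hs]; exact hz
    · exact ⟨z * s, Or.inr (Set.mul_mem_mul h hs), rfl⟩
  rintro _ ⟨z, rfl⟩
  have hz : z ∈ Subgroup.closure S := by rw [hS]; trivial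
  induction hz using Subgroup.closure_induction_right with
  | one => exact ⟨1, Or.inl rfl, rfl⟩
  | mul_right x _ s hs ih => exact step x s (Or.inl hs) ih
  | mul_inv_cancel x _ s hs ih => exact step x s⁻¹ (Or.inr (by simpa using hs)) ih

theorem exists_H (hd : IsIntProperMetric d) (hB : (boundary d).Finite) :
    ∃ H : Subgroup G, H.FiniteIndex ∧ ∀ h ∈ H, ∀ f ∈ boundary d, ∀ y, f (h * y) = f h + f y := by
  have : Finite (boundary d) := hB
  let act : MulAction G (boundary d) :=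
    { smul := fun g f => ⟨sh g⁻¹ f.1, sh_mem hd _ f.2⟩
      one_smul := fun f => Subtype.ext (by
        show sh (1 : G)⁻¹ f.1 = f.1
        rw [inv_one, sh_one (bd_one f.2)])
      mul_smul := fun a b f => Subtype.ext (by
        show sh (a * b)⁻¹ f.1 = sh a⁻¹ (sh b⁻¹ f.1)
        rw [sh_sh, mul_inv_rev]) }
  refine ⟨(MulAction.toPermHom G (boundary d)).ker, inferInstance, ?_⟩
  intro h hh f hf y
  have h1 := (MonoidHom.mem_ker.1 (inv_mem hh))
  have h2 : sh (h⁻¹)⁻¹ f = f :=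
    congrArg Subtype.val (DFunLike.congr_fun h1 (⟨f, hf⟩ : boundary d))
  rw [inv_inv] at h2
  have h3 := congrFun h2 y
  simp only [sh] at h3
  linarith

theorem add_pow' {H : Subgroup G} {f : G → ℝ} (hf : ∀ h ∈ H, ∀ y, f (h * y) = f h + f y)
    {a : G} (ha : a ∈ H) (n : ℕ) : f (a ^ n) = n * f a := by
  induction n with
  | zero =>
    have := hf 1 H.one_mem 1
    simp only [mul_one] at this
    simp only [pow_zero, Nat.cast_zero, zero_mul]
    linarith
  | succ n ih => rw [pow_succ, hf _ (H.pow_mem ha n), ih]; push_cast; ring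

theorem add_inv' {H : Subgroup G} {f : G → ℝ} (hf : ∀ h ∈ H, ∀ y, f (h * y) = f h + f y)
    {a : G} (ha : a ∈ H) : f a⁻¹ = - f a := by
  have h1 := hf a ha a⁻¹
  have h2 := add_pow' hf ha 0
  simp only [pow_zero, Nat.cast_zero, zero_mul] at h2
  rw [mul_inv_cancel, h2] at h1
  linarith

theorem path {β : Type} {Q : G → β} {z s : G} (n : ℕ)
    (h : ∀ j < n, Q (z * s ^ j * s) = Q (z * s ^ j)) : Q (z * s ^ n) = Q z := by
  induction n with
  | zero => simp
  | succ n ih =>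
    rw [pow_succ, ← mul_assoc, h n (Nat.lt_succ_self n)]
    exact ih fun j hj => h j (by omega)

theorem no_rank_two (hd : IsIntProperMetric d) {H : Subgroup G}
    (hH : ∀ h ∈ H, ∀ f ∈ boundary d, ∀ y, f (h * y) = f h + f y)
    {ψ : G → G → ℝ} {c : G → ℝ} (hψ : ∀ z, ψ z ∈ boundary d) (hN : ∀ z, d 1 z = ψ z z + c z)
    (hev : ∀ s, ∀ᶠ z in cofinite, ψ (z * s) = ψ z ∧ c (z * s) = c z)
    {α β : G → ℝ} (hα : ∀ h ∈ H, ∀ y, α (h * y) = α h + α y)
    (hβ : ∀ h ∈ H, ∀ y, β (h * y) = β h + β y) {a b : G} (ha : a ∈ H) (hb : b ∈ H)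
    (h1 : α a = 1) (h2 : α b = 0) (h3 : β a = 0) (h4 : β b = 1) : False := by
  let Q : G → (G → ℝ) × ℝ := fun z => (ψ z, c z)
  have hQ : ∀ s, ∀ᶠ z in cofinite, Q (z * s) = Q z := fun s =>
    (hev s).mono fun z hz => Prod.ext hz.1 hz.2
  have hfin := eventually_cofinite.1 ((hQ a).and ((hQ b).and (hQ a⁻¹)))
  obtain ⟨M1, hM1⟩ := (hfin.image α).bddAbove
  obtain ⟨M2, hM2⟩ := (hfin.image β).bddAbove
  obtain ⟨m, hm⟩ := exists_nat_gt (max M1 M2)
  have hm1 : M1 < m := (le_max_left _ _).trans_lt hm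
  have hm2 : M2 < m := (le_max_right _ _).trans_lt hm
  have good : ∀ z, ((m : ℝ) ≤ α z ∨ (m : ℝ) ≤ β z) →
      Q (z * a) = Q z ∧ Q (z * b) = Q z ∧ Q (z * a⁻¹) = Q z := by
    intro z hz
    by_contra hcon
    have e1 := hM1 ⟨z, hcon, rfl⟩
    have e2 := hM2 ⟨z, hcon, rfl⟩
    rcases hz with hz | hz <;> linarith
  have hαa := add_pow' hα ha
  have hαb := add_pow' hα hb
  have hβa := add_pow' hβ ha
  have hβb := add_pow' hβ hb
  have hβa' := add_pow' hβ (H.inv_mem ha)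
  simp only [h1, h2, h3, h4, add_inv' hβ ha, mul_one, mul_zero, neg_zero] at hαa hαb hβa hβb hβa'
  have hF := fun h hh => hH h hh _ (hψ (a ^ m))
  have bound : ∀ k : ℕ, d 1 (a ^ (m + k)) ≤ 2 * c (a ^ m) + m * ψ (a ^ m) b := by
    intro k
    have q1 : Q (a ^ m * a ^ k) = Q (a ^ m) := by
      refine path k fun j _ => (good _ (Or.inl ?_)).1
      rw [← pow_add, hαa]; push_cast; linarith [(Nat.cast_nonneg j : (0 : ℝ) ≤ j)]
    rw [← pow_add] at q1
    have q2 : Q (a ^ (m + k) * b ^ m) = Q (a ^ (m + k)) := by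
      refine path m fun j _ => (good _ (Or.inl ?_)).2.1
      rw [hα _ (H.pow_mem ha _), hαa, hαb]; push_cast
      linarith [(Nat.cast_nonneg k : (0 : ℝ) ≤ k)]
    have q3 : Q (a ^ (m + k) * b ^ m * a⁻¹ ^ (2 * (m + k))) = Q (a ^ (m + k) * b ^ m) := by
      refine path _ fun j _ => (good _ (Or.inr ?_)).2.2
      rw [hβ _ (H.mul_mem (H.pow_mem ha _) (H.pow_mem hb _)), hβ _ (H.pow_mem ha _), hβa, hβb,
        hβa']
      linarith
    have q4 := q3.trans (q2.trans q1)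
    have n1 := hN (a ^ (m + k))
    have n2 := hN (a ^ (m + k) * b ^ m * a⁻¹ ^ (2 * (m + k)))
    have p1 : ψ (a ^ (m + k)) = ψ (a ^ m) := congrArg Prod.fst q1
    have p2 : c (a ^ (m + k)) = c (a ^ m) := congrArg Prod.snd q1
    have p3 : ψ (a ^ (m + k) * b ^ m * a⁻¹ ^ (2 * (m + k))) = ψ (a ^ m) := congrArg Prod.fst q4
    have p4 : c (a ^ (m + k) * b ^ m * a⁻¹ ^ (2 * (m + k))) = c (a ^ m) := congrArg Prod.snd q4
    rw [p1, p2, add_pow' hF ha] at n1
    rw [p3, p4, hF _ (H.mul_mem (H.pow_mem ha _) (H.pow_mem hb _)), hF _ (H.pow_mem ha _),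
      add_pow' hF ha, add_pow' hF hb, add_pow' hF (H.inv_mem ha), add_inv' hF ha] at n2
    have n3 := d_nonneg hd 1 (a ^ (m + k) * b ^ m * a⁻¹ ^ (2 * (m + k)))
    push_cast at n1 n2
    linarith
  refine Set.infinite_of_injective_forall_mem (f := fun k : ℕ => a ^ (m + k)) ?_ bound
    (hd.proper 1 _)
  intro k l hkl
  have := congrArg α hkl
  simp only [hαa] at this
  have h5 : m + k = m + l := by exact_mod_cast this
  omega

theorem main [Group.FG G] (hd : IsIntProperMetric d) (hB : (boundary d).Finite) :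
    ∃ g : G, (Subgroup.zpowers g).FiniteIndex := by
  rcases finite_or_infinite G with hG | hG
  · exact ⟨1, inferInstance⟩
  obtain ⟨ψ, c, hψ, hN, hev⟩ := exists_psi hd hB
  obtain ⟨H, hHi, hH⟩ := exists_H hd hB
  have hc : (Set.range c).Finite := finite_range_of_ev fun s => (hev s).mono fun z hz => hz.2
  obtain ⟨M, hM⟩ := hc.bddAbove
  have hK0 : {h : G | ∀ f ∈ boundary d, f h = 0}.Finite := by
    refine (hd.proper 1 M).subset fun h hh => ?_
    have := hN h
    rw [hh _ (hψ h), zero_add] at this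
    show d 1 h ≤ M
    rw [this]
    exact hM ⟨h, rfl⟩
  have hHinf : (H : Set G).Infinite := by
    intro hfin
    have : Finite H := hfin
    have : Finite G := Finite.of_equiv _ (Subgroup.groupEquivQuotientProdSubgroup (s := H)).symm
    exact not_finite G
  obtain ⟨a, ha, ha'⟩ := hHinf.exists_notMem_finite hK0
  simp only [Set.mem_ofPred_eq, not_forall] at ha'
  obtain ⟨f0, hf0, hf0a⟩ := ha'
  have hf0H := fun h hh => hH h hh _ hf0
  have hL : {h : G | h ∈ H ∧ f0 h = 0}.Finite := by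
    by_contra hinf
    obtain ⟨b, ⟨hb, hb0⟩, hb'⟩ := Set.Infinite.exists_notMem_finite hinf hK0
    simp only [Set.mem_ofPred_eq, not_forall] at hb'
    obtain ⟨f1, hf1, hf1b⟩ := hb'
    refine no_rank_two hd hH hψ hN hev (α := fun z => f0 z / f0 a)
      (β := fun z => (f1 z * f0 a - f0 z * f1 a) / (f1 b * f0 a)) ?_ ?_ ha hb ?_ ?_ ?_ ?_
    · intro h hh y
      rw [hH h hh _ hf0]; ring
    · intro h hh y
      rw [hH h hh _ hf0, hH h hh _ hf1]; ring
    · exact div_self hf0a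
    · simp [hb0]
    · rw [mul_comm (f1 a), sub_self, zero_div]
    · rw [hb0, zero_mul, sub_zero]
      exact div_self (mul_ne_zero hf1b hf0a)
  have hfib : ∀ r : ℝ, {h : G | h ∈ H ∧ f0 h = r}.Finite := by
    intro r
    rcases Set.eq_empty_or_nonempty {h : G | h ∈ H ∧ f0 h = r} with he | ⟨h0, hh0, hr⟩
    · rw [he]; exact Set.finite_empty
    · refine (hL.image (fun l => h0 * l)).subset ?_
      rintro h ⟨hh, hhr⟩
      refine ⟨h0⁻¹ * h, ⟨H.mul_mem (H.inv_mem hh0) hh, ?_⟩, by simp⟩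
      rw [hf0H _ (H.inv_mem hh0), add_inv' hf0H hh0, hr, hhr]
      ring
  obtain ⟨p, hp⟩ := bd_int hd hf0 a
  have hp0 : p ≠ 0 := by
    rintro rfl
    exact hf0a (by simpa using hp)
  have hzp : ∀ q : ℤ, f0 (a ^ q) = q * p := by
    intro q
    obtain ⟨n, rfl | rfl⟩ := q.eq_nat_or_neg
    · rw [zpow_natCast, add_pow' hf0H ha, hp]; push_cast; ring
    · rw [zpow_neg, zpow_natCast, add_inv' hf0H (H.pow_mem ha n), add_pow' hf0H ha, hp]
      push_cast; ring
  have hR : (⋃ r ∈ Set.Ico (0 : ℤ) |p|, {h : G | h ∈ H ∧ f0 h = (r : ℝ)}).Finite :=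
    (Set.finite_Ico _ _).biUnion fun r _ => hfib r
  refine ⟨a, ?_⟩
  have hq : Finite (G ⧸ Subgroup.zpowers a) := by
    have : Finite (⋃ r ∈ Set.Ico (0 : ℤ) |p|, {h : G | h ∈ H ∧ f0 h = (r : ℝ)} : Set G) := hR
    refine Finite.of_surjective (fun x : (G ⧸ H) ×
      (⋃ r ∈ Set.Ico (0 : ℤ) |p|, {h : G | h ∈ H ∧ f0 h = (r : ℝ)} : Set G) =>
        ((x.1.out * x.2.1 : G) : G ⧸ Subgroup.zpowers a)) ?_
    intro y
    obtain ⟨g, rfl⟩ := QuotientGroup.mk_surjective y
    have h1 : ((g : G ⧸ H).out)⁻¹ * g ∈ H := QuotientGroup.eq.1 (QuotientGroup.out_eq' _)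
    set h := ((g : G ⧸ H).out)⁻¹ * g with hh
    obtain ⟨k, hk⟩ := bd_int hd hf0 h
    refine ⟨((g : G ⧸ H), ⟨h * a ^ (-(k / p)), ?_⟩), ?_⟩
    · simp only [Set.mem_iUnion]
      refine ⟨k % p, ⟨Int.emod_nonneg _ hp0, Int.emod_lt_abs _ hp0⟩,
        H.mul_mem h1 (H.zpow_mem ha _), ?_⟩
      rw [hf0H _ h1, hzp, hk, Int.emod_def]
      push_cast
      ring
    · rw [QuotientGroup.eq]
      simp only [hh, mul_inv_rev, ← mul_assoc, mul_inv_cancel, one_mul, inv_mul_cancel_right]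
      exact Subgroup.inv_mem _ (Subgroup.zpow_mem_zpowers _ _)
  exact Subgroup.finiteIndex_of_finite_quotient

end Pool.Agent.H546Z.BM
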