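import Mathlib
import Pool.Agent.H546Z.CantorHomeo

/-! Groups with finite decomposition complexity act on the Cantor set with finite dynamical
complexity.  Idea: the well-founded tree of decompositions witnessing FDC involves only countably
many subsets of `Γ`; a metrizable quotient of `βΓ × 2^ℕ` resolving all of them works. -/

set_option autoImplicit false

open Filter Topology Set

namespace Pool.Agent.H546Z.FDC

abbrev C := ℕ → Bool

variable {Γ : Type} [Group Γ]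

/-- A continuous action on a space, with a dense family of marked sets `R y`, `y ∈ Γ`. -/
structure Model (Γ : Type) [Group Γ] (X : Type) [TopologicalSpace X] where
  act : Γ → X → X
  cont : ∀ g, Continuous (act g)
  act_one : ∀ x, act 1 x = x
  act_mul : ∀ g h x, act (g * h) x = act g (act h x)
  R : Γ → Set X
  equiv : ∀ g y x, x ∈ R y → act g x ∈ R (y * g⁻¹)
  dense : closure (⋃ y, R y) = univ

namespace Model

variable {X : Type} [TopologicalSpace X] (M : Model Γ X)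

def cl (B : Set Γ) : Set X := closure (⋃ y ∈ B, M.R y)

def Good (B : Set Γ) : Prop := IsOpen (M.cl B) ∧ ∀ y x, x ∈ M.R y → x ∈ M.cl B → y ∈ B

lemma cl_mono {B B' : Set Γ} (h : B ⊆ B') : M.cl B ⊆ M.cl B' :=
  closure_mono (biUnion_subset_biUnion_left h)

lemma cl_union (B B' : Set Γ) : M.cl (B ∪ B') = M.cl B ∪ M.cl B' := by
  unfold cl
  rw [biUnion_union, closure_union]

lemma cl_univ : M.cl univ = univ := by
  unfold cl
  simpa using M.dense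

lemma cl_nonempty {B : Set Γ} {x : X} (hx : x ∈ M.cl B) : B.Nonempty := by
  by_contra h
  rw [not_nonempty_iff_eq_empty] at h
  subst h
  simp [cl] at hx

lemma cl_inter {B B' : Set Γ} (hB : M.Good B) {x : X} (h1 : x ∈ M.cl B) (h2 : x ∈ M.cl B') :
    x ∈ M.cl (B ∩ B') := by
  have h3 : x ∈ closure (M.cl B ∩ ⋃ y ∈ B', M.R y) := hB.1.inter_closure ⟨h1, h2⟩
  refine closure_mono ?_ h3
  rintro z ⟨hz1, hz2⟩
  simp only [mem_iUnion] at hz2 ⊢
  obtain ⟨y, hy, hz⟩ := hz2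
  exact ⟨y, ⟨hB.2 y z hz hz1, hy⟩, hz⟩

lemma cl_act {B B' : Set Γ} (g : Γ) (h : ∀ y ∈ B, y * g⁻¹ ∈ B') {x : X} (hx : x ∈ M.cl B) :
    M.act g x ∈ M.cl B' := by
  refine map_mem_closure (M.cont g) hx ?_
  intro z hz
  simp only [mem_iUnion] at hz ⊢
  obtain ⟨y, hy, hz⟩ := hz
  exact ⟨y * g⁻¹, h y hy, M.equiv g y z hz⟩

lemma act_inv (g : Γ) (x : X) : M.act g⁻¹ (M.act g x) = x := by
  rw [← M.act_mul, inv_mul_cancel, M.act_one]

lemma act_inv' (g : Γ) (x : X) : M.act g (M.act g⁻¹ x) = x := by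
  rw [← M.act_mul, mul_inv_cancel, M.act_one]

def IsSub (H : Set (Γ × X)) : Prop :=
  (∀ (g h : Γ) (x : X), (g, M.act h x) ∈ H → (h, x) ∈ H → (g * h, x) ∈ H) ∧
    (∀ (g : Γ) (x : X), (g, x) ∈ H → (g⁻¹, M.act g x) ∈ H)

def gen (K : Set (Γ × X)) : Set (Γ × X) := ⋂₀ {S : Set (Γ × X) | M.IsSub S ∧ K ⊆ S}

lemma gen_sub (K : Set (Γ × X)) : M.IsSub (M.gen K) := by
  constructor
  · intro g h x h1 h2 S hS
    exact hS.1.1 g h x (h1 S hS) (h2 S hS)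
  · intro g x h1 S hS
    exact hS.1.2 g x (h1 S hS)

lemma subset_gen (K : Set (Γ × X)) : K ⊆ M.gen K := fun _ hk _ hS => hS.2 hk

lemma gen_subset {K S : Set (Γ × X)} (hS : M.IsSub S) (hK : K ⊆ S) : M.gen K ⊆ S :=
  fun _ hk => hk S ⟨hS, hK⟩

lemma gen_open {K : Set (Γ × X)} (hK : ∀ g : Γ, IsOpen {x : X | (g, x) ∈ K}) (g : Γ) :
    IsOpen {x : X | (g, x) ∈ M.gen K} := by
  let G : Set (Γ × X) := {k | k.2 ∈ interior {x : X | (k.1, x) ∈ M.gen K}}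
  have hG : M.IsSub G := by
    constructor
    · intro g h x h1 h2
      change M.act h x ∈ interior {x : X | (g, x) ∈ M.gen K} at h1
      change x ∈ interior {x : X | (h, x) ∈ M.gen K} at h2
      change x ∈ interior {x : X | (g * h, x) ∈ M.gen K}
      refine mem_interior.mpr ⟨(M.act h) ⁻¹' (interior {x : X | (g, x) ∈ M.gen K}) ∩
        interior {x : X | (h, x) ∈ M.gen K}, ?_,
        (isOpen_interior.preimage (M.cont h)).inter isOpen_interior, ⟨h1, h2⟩⟩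
      rintro z ⟨hz1, hz2⟩
      have h3 : M.act h z ∈ {x : X | (g, x) ∈ M.gen K} := interior_subset (mem_preimage.mp hz1)
      have h4 : z ∈ {x : X | (h, x) ∈ M.gen K} := interior_subset hz2
      exact (M.gen_sub K).1 g h z h3 h4
    · intro g x h1
      change x ∈ interior {x : X | (g, x) ∈ M.gen K} at h1
      change M.act g x ∈ interior {x : X | (g⁻¹, x) ∈ M.gen K}
      refine mem_interior.mpr ⟨(M.act g⁻¹) ⁻¹' (interior {x : X | (g, x) ∈ M.gen K}), ?_,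
        isOpen_interior.preimage (M.cont _), ?_⟩
      · intro z hz
        have h3 : M.act g⁻¹ z ∈ {x : X | (g, x) ∈ M.gen K} := interior_subset (mem_preimage.mp hz)
        have h2 := (M.gen_sub K).2 g _ h3
        rw [M.act_inv'] at h2
        exact h2
      · rw [mem_preimage, M.act_inv]
        exact h1
  have hKG : K ⊆ G := by
    rintro ⟨h, x⟩ hk
    exact mem_interior.mpr ⟨{x : X | (h, x) ∈ K}, fun z hz => M.subset_gen K hz, hK h, hk⟩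
  have h1 : {x : X | (g, x) ∈ M.gen K} = interior {x : X | (g, x) ∈ M.gen K} :=
    Subset.antisymm (fun x hx => M.gen_subset hG hKG hx) interior_subset
  rw [h1]
  exact isOpen_interior

end Model

/-- the points `y` such that `y` and `y g⁻¹` lie in the same member of the family -/
def A (𝒴 : Set (Set Γ)) (g : Γ) : Set Γ := {y | ∃ Y ∈ 𝒴, y ∈ Y ∧ y * g⁻¹ ∈ Y}

namespace Model

variable {X : Type} [TopologicalSpace X] (M : Model Γ X)

def HY (𝒴 : Set (Set Γ)) : Set (Γ × X) := {k | k.2 ∈ M.cl (A 𝒴 k.1)}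

lemma HY_sub {𝒴 : Set (Set Γ)} (hd : 𝒴.PairwiseDisjoint id) (hg : ∀ g, M.Good (A 𝒴 g)) :
    M.IsSub (M.HY 𝒴) := by
  constructor
  · intro g h x h1 h2
    change M.act h x ∈ M.cl (A 𝒴 g) at h1
    change x ∈ M.cl (A 𝒴 h) at h2
    change x ∈ M.cl (A 𝒴 (g * h))
    have h3 : x ∈ M.cl {y | y * h⁻¹ ∈ A 𝒴 g} := by
      have := M.cl_act (B' := {y | y * h⁻¹ ∈ A 𝒴 g}) h⁻¹ (fun y hy => by simpa using hy) h1
      rwa [M.act_inv] at this
    refine M.cl_mono ?_ (M.cl_inter (hg h) h2 h3)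
    rintro y ⟨⟨Y, hY, hy1, hy2⟩, ⟨Y', hY', hy3, hy4⟩⟩
    have : Y = Y' := by
      by_contra hne
      exact Set.disjoint_left.mp (hd hY hY' hne) hy2 hy3
    subst this
    refine ⟨Y, hY, hy1, ?_⟩
    rw [mul_inv_rev, ← mul_assoc]
    exact hy4
  · intro g x h1
    change x ∈ M.cl (A 𝒴 g) at h1
    change M.act g x ∈ M.cl (A 𝒴 g⁻¹)
    refine M.cl_act g ?_ h1
    rintro y ⟨Y, hY, hy1, hy2⟩
    exact ⟨Y, hY, hy2, by simpa using hy1⟩

/-- `𝒞` contains the open subgroupoids with finite support -/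
def Base (𝒞 : Set (Set (Γ × X))) : Prop :=
  ∀ H : Set (Γ × X), M.IsSub H → (∀ g : Γ, IsOpen {x : X | (g, x) ∈ H}) →
    Set.Finite {g : Γ | ∃ x : X, (g, x) ∈ H} → H ∈ 𝒞

/-- `𝒞` is closed under decomposability -/
def Step (𝒞 : Set (Set (Γ × X))) : Prop :=
  ∀ H : Set (Γ × X), M.IsSub H → (∀ g : Γ, IsOpen {x : X | (g, x) ∈ H}) →
    (∀ K : Set (Γ × X), K ⊆ H → (∀ g : Γ, IsOpen {x : X | (g, x) ∈ K}) →
      Set.Finite {g : Γ | ∃ x : X, (g, x) ∈ K} →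
      ∃ U₀ U₁ : Set X, IsOpen U₀ ∧ IsOpen U₁ ∧ {x : X | ((1 : Γ), x) ∈ H} ⊆ U₀ ∪ U₁ ∧
        M.gen {k ∈ K | k.2 ∈ U₀} ∈ 𝒞 ∧ M.gen {k ∈ K | k.2 ∈ U₁} ∈ 𝒞) → H ∈ 𝒞

end Model

/-- the inductive invariant -/
def Inv (𝒴 : Set (Set Γ)) : Prop :=
  𝒴.PairwiseDisjoint id ∧ ∃ S : Set (Set Γ), S.Countable ∧ ∀ M : Model Γ C,
    (∀ B ∈ S, M.Good B) → ∀ 𝒞 : Set (Set (Γ × C)), M.Base 𝒞 → M.Step 𝒞 →
      ∀ H : Set (Γ × C), H ⊆ M.HY 𝒴 → M.IsSub H → (∀ g : Γ, IsOpen {x : C | (g, x) ∈ H}) → H ∈ 𝒞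

lemma inv_base {ℓ : Γ → ℝ} (hfin : ∀ R : ℝ, Set.Finite {g | ℓ g ≤ R}) (𝒴 : Set (Set Γ))
    (hd : 𝒴.PairwiseDisjoint id)
    (hb : ∃ R : ℝ, ∀ Y ∈ 𝒴, ∀ a ∈ Y, ∀ b ∈ Y, ℓ (a⁻¹ * b) ≤ R) : Inv 𝒴 := by
  obtain ⟨R, hR⟩ := hb
  refine ⟨hd, ∅, countable_empty, fun M _ 𝒞 hB _ H hH hs ho => hB H hs ho ?_⟩
  refine (hfin R).subset ?_
  rintro g ⟨x, hx⟩
  obtain ⟨y, Y, hY, h1, h2⟩ := M.cl_nonempty (hH hx)
  have := hR Y hY _ h2 _ h1
  simpa using this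

/-- one half of the inductive step -/
lemma half {ℓ : Γ → ℝ} (h1 : ℓ 1 = 0) {𝒴 𝒵 : Set (Set Γ)} (hd : 𝒴.PairwiseDisjoint id)
    {r : ℝ} (hr : 0 < r) {P : Set Γ → Set (Set Γ)} (hP : ∀ Y ∈ 𝒴, ⋃₀ P Y ⊆ Y)
    (hN : ∀ Y ∈ 𝒴, ∀ B ∈ P Y, {y ∈ Y | ∃ z ∈ B, ℓ (y⁻¹ * z) < r} ∈ 𝒵) {g : Γ} (hg : ℓ g < r) :
    (⋃ Y ∈ 𝒴, ⋃₀ P Y) ∩ A 𝒴 g ⊆ A 𝒵 g := by
  rintro y ⟨hy, Y, hY, hy1, hy2⟩
  simp only [mem_iUnion] at hy
  obtain ⟨Y', hY', hy'⟩ := hy
  have : Y' = Y := by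
    by_contra hne
    exact Set.disjoint_left.mp (hd hY' hY hne) (hP Y' hY' hy') hy1
  subst this
  obtain ⟨B, hB, hyB⟩ := hy'
  refine ⟨_, hN Y' hY B hB, ⟨hy1, y, hyB, by simpa [h1] using hr⟩, ⟨hy2, y, hyB, ?_⟩⟩
  simpa using hg

lemma inv_step [Countable Γ] {ℓ : Γ → ℝ} (h1 : ℓ 1 = 0) (𝒴 : Set (Set Γ))
    (hd : 𝒴.PairwiseDisjoint id)
    (hs : ∀ r : ℝ, 0 ≤ r → ∃ 𝒵₀, Inv 𝒵₀ ∧ ∃ 𝒵₁, Inv 𝒵₁ ∧ ∀ Y ∈ 𝒴,
      ∃ P₀ P₁ : Set (Set Γ), Y = ⋃₀ P₀ ∪ ⋃₀ P₁ ∧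
        (∀ B ∈ P₀, {y ∈ Y | ∃ z ∈ B, ℓ (y⁻¹ * z) < r} ∈ 𝒵₀) ∧
        (∀ B ∈ P₁, {y ∈ Y | ∃ z ∈ B, ℓ (y⁻¹ * z) < r} ∈ 𝒵₁)) : Inv 𝒴 := by
  have hs' := fun n : ℕ => hs n (Nat.cast_nonneg n)
  choose Z₀ hZ₀ Z₁ hZ₁ hs' using hs'
  choose! P₀ P₁ hY hN₀ hN₁ using hs'
  choose S₀ hS₀ hI₀ using fun n => (hZ₀ n).2
  choose S₁ hS₁ hI₁ using fun n => (hZ₁ n).2
  let V₀ : ℕ → Set Γ := fun n => ⋃ Y ∈ 𝒴, ⋃₀ P₀ n Y
  let V₁ : ℕ → Set Γ := fun n => ⋃ Y ∈ 𝒴, ⋃₀ P₁ n Y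
  refine ⟨hd, (⋃ n, S₀ n ∪ S₁ n ∪ range (A (Z₀ n)) ∪ range (A (Z₁ n))) ∪ range V₀ ∪ range V₁,
    ?_, ?_⟩
  · refine ((countable_iUnion fun n => ?_).union (countable_range _)).union (countable_range _)
    exact (((hS₀ n).union (hS₁ n)).union (countable_range _)).union (countable_range _)
  intro M hM 𝒞 hB hS H hH hsub ho
  refine hS H hsub ho fun K hK hKo hKf => ?_
  obtain ⟨n, hn0, hn⟩ : ∃ n : ℕ, (0 : ℝ) < n ∧ ∀ g x, (g, x) ∈ K → ℓ g < n := by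
    obtain ⟨b, hb⟩ := (hKf.image ℓ).bddAbove
    obtain ⟨n, hn⟩ := exists_nat_gt (max b 0)
    refine ⟨n, lt_of_le_of_lt (le_max_right _ _) hn, fun g x hx => ?_⟩
    exact lt_of_le_of_lt ((hb ⟨g, ⟨x, hx⟩, rfl⟩).trans (le_max_left _ _)) hn
  have gV₀ : M.Good (V₀ n) := hM _ (Or.inl (Or.inr ⟨n, rfl⟩))
  have gV₁ : M.Good (V₁ n) := hM _ (Or.inr ⟨n, rfl⟩)
  have gS : ∀ B ∈ S₀ n ∪ S₁ n ∪ range (A (Z₀ n)) ∪ range (A (Z₁ n)), M.Good B :=
    fun B hB => hM _ (Or.inl (Or.inl (mem_iUnion.mpr ⟨n, hB⟩)))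
  have hopen : ∀ U : Set C, IsOpen U → ∀ g : Γ, IsOpen {x : C | (g, x) ∈ {k ∈ K | k.2 ∈ U}} :=
    fun U hU g => (hKo g).inter hU
  refine ⟨M.cl (V₀ n), M.cl (V₁ n), gV₀.1, gV₁.1, ?_, ?_, ?_⟩
  · intro x hx
    rw [← M.cl_union]
    refine M.cl_mono ?_ (hH hx)
    rintro y ⟨Y, hY', hy, -⟩
    rw [hY n Y hY'] at hy
    rcases hy with hy | hy
    · exact Or.inl (mem_biUnion hY' hy)
    · exact Or.inr (mem_biUnion hY' hy)
  · refine hI₀ n M (fun B hB => gS B (Or.inl (Or.inl (Or.inl hB)))) 𝒞 hB hS _ ?_ (M.gen_sub _)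
      (M.gen_open (hopen _ gV₀.1))
    refine M.gen_subset (M.HY_sub (hZ₀ n).1 fun g => gS _ (Or.inl (Or.inr ⟨g, rfl⟩))) ?_
    rintro ⟨g, x⟩ ⟨hk, hx⟩
    have h2' : (g, x) ∈ M.HY 𝒴 := hH (hK hk)
    have h2 : x ∈ M.cl (A 𝒴 g) := h2'
    have h3 : x ∈ M.cl (V₀ n ∩ A 𝒴 g) := M.cl_inter gV₀ hx h2
    have h4 : ∀ Y ∈ 𝒴, ⋃₀ P₀ n Y ⊆ Y := fun Y hY' =>
      subset_union_left.trans (hY n Y hY').symm.subset
    have h5 : V₀ n ∩ A 𝒴 g ⊆ A (Z₀ n) g := half h1 hd hn0 h4 (hN₀ n) (hn g x hk)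
    exact M.cl_mono h5 h3
  · refine hI₁ n M (fun B hB => gS B (Or.inl (Or.inl (Or.inr hB)))) 𝒞 hB hS _ ?_ (M.gen_sub _)
      (M.gen_open (hopen _ gV₁.1))
    refine M.gen_subset (M.HY_sub (hZ₁ n).1 fun g => gS _ (Or.inr ⟨g, rfl⟩)) ?_
    rintro ⟨g, x⟩ ⟨hk, hx⟩
    have h2' : (g, x) ∈ M.HY 𝒴 := hH (hK hk)
    have h2 : x ∈ M.cl (A 𝒴 g) := h2'
    have h3 : x ∈ M.cl (V₁ n ∩ A 𝒴 g) := M.cl_inter gV₁ hx h2
    have h4 : ∀ Y ∈ 𝒴, ⋃₀ P₁ n Y ⊆ Y := fun Y hY' =>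
      subset_union_right.trans (hY n Y hY').symm.subset
    have h5 : V₁ n ∩ A 𝒴 g ⊆ A (Z₁ n) g := half h1 hd hn0 h4 (hN₁ n) (hn g x hk)
    exact M.cl_mono h5 h3

/-! ### Construction of a model resolving countably many sets -/

/-- transport of a model along a homeomorphism -/
def Model.transport {X X' : Type} [TopologicalSpace X] [TopologicalSpace X'] (M : Model Γ X)
    (e : X' ≃ₜ X) : Model Γ X' where
  act g x := e.symm (M.act g (e x))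
  cont g := e.symm.continuous.comp ((M.cont g).comp e.continuous)
  act_one x := by simp [M.act_one]
  act_mul g h x := by simp [M.act_mul]
  R y := e ⁻¹' M.R y
  equiv g y x hx := by simpa using M.equiv g y _ hx
  dense := by rw [← preimage_iUnion, ← e.preimage_closure, M.dense, preimage_univ]

lemma Model.transport_good {X X' : Type} [TopologicalSpace X] [TopologicalSpace X']
    (M : Model Γ X) (e : X' ≃ₜ X) {B : Set Γ} (hB : M.Good B) : (M.transport e).Good B := by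
  have h : (M.transport e).cl B = e ⁻¹' M.cl B := by
    unfold Model.cl
    rw [e.preimage_closure, preimage_iUnion₂]
    rfl
  refine ⟨by rw [h]; exact hB.1.preimage e.continuous, fun y x hx hx' => ?_⟩
  rw [h] at hx'
  exact hB.2 y _ hx hx'

def sig (g : Γ) : (ℕ × Γ) ⊕ ℕ → (ℕ × Γ) ⊕ ℕ
  | Sum.inl (n, h) => Sum.inl (n, g⁻¹ * h)
  | Sum.inr k => Sum.inr k

open Classical in
noncomputable def pt (B : ℕ → Set Γ) (y : Γ) (w : C) : (ℕ × Γ) ⊕ ℕ → Bool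
  | Sum.inl (n, h) => decide (y * h ∈ B n)
  | Sum.inr k => w k

lemma sig_one (i : (ℕ × Γ) ⊕ ℕ) : sig (1 : Γ) i = i := by
  rcases i with ⟨n, h⟩ | k <;> simp [sig]

lemma sig_mul (g h : Γ) (i : (ℕ × Γ) ⊕ ℕ) : sig (g * h) i = sig h (sig g i) := by
  rcases i with ⟨n, h⟩ | k <;> simp [sig, mul_assoc]

lemma pt_sig (B : ℕ → Set Γ) (g y : Γ) (w : C) (i : (ℕ × Γ) ⊕ ℕ) :
    pt B y w (sig g i) = pt B (y * g⁻¹) w i := by
  rcases i with ⟨n, h⟩ | k <;> simp [sig, pt, mul_assoc]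

lemma exists_model [Countable Γ] (B : ℕ → Set Γ) : ∃ M : Model Γ C, ∀ n, M.Good (B n) := by
  classical
  obtain ⟨j⟩ : Nonempty (ℕ ≃ (ℕ × Γ) ⊕ ℕ) := by
    obtain ⟨d⟩ := nonempty_denumerable ((ℕ × Γ) ⊕ ℕ)
    exact ⟨(Denumerable.eqv _).symm⟩
  let p : Γ → C → C := fun y w m => pt B y w (j m)
  let a : Γ → C → C := fun g z m => z (j.symm (sig g (j m)))
  have ha : ∀ g, Continuous (a g) := fun g => continuous_pi fun m => continuous_apply _
  have hap : ∀ g y w, a g (p y w) = p (y * g⁻¹) w := by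
    intro g y w
    funext m
    simp only [a, p, Equiv.apply_symm_apply, pt_sig]
  let T : Set C := {z | ∃ y w, p y w = z}
  let P : Set C := closure T
  have haP : ∀ g, ∀ z ∈ P, a g z ∈ P := by
    intro g z hz
    refine map_mem_closure (ha g) hz ?_
    rintro _ ⟨y, w, rfl⟩
    exact ⟨_, _, (hap g y w).symm⟩
  have hPne : P.Nonempty := ⟨p 1 (fun _ => true), subset_closure ⟨_, _, rfl⟩⟩
  have hperf : Perfect P := by
    apply Preperfect.perfect_closure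
    rw [preperfect_iff_nhds]
    rintro _ ⟨y, w, rfl⟩ U hU
    obtain ⟨N, hN⟩ := Cantor.exists_cyl hU
    obtain ⟨k, hk⟩ : ∃ k : ℕ, N ≤ j.symm (Sum.inr k) := by
      by_contra hc
      push Not at hc
      have hinj : Function.Injective (fun k : ℕ => j.symm (Sum.inr k)) :=
        j.symm.injective.comp Sum.inr_injective
      exact Set.infinite_range_of_injective hinj
        ((Set.finite_lt_nat N).subset (by rintro _ ⟨k, rfl⟩; exact hc k))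
    refine ⟨p y (Function.update w k (!w k)), ⟨hN fun i hi => ?_, _, _, rfl⟩, fun h => ?_⟩
    · have hne : j i ≠ Sum.inr k := by
        intro h
        rw [← h, Equiv.symm_apply_apply] at hk
        omega
      simp only [p]
      rcases hj : j i with ⟨n, h⟩ | l
      · simp [pt]
      · have : l ≠ k := by
          rintro rfl
          exact hne hj
        simp [pt, Function.update_of_ne this]
    · have := congrFun h (j.symm (Sum.inr k))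
      simp [p, pt] at this
  obtain ⟨e⟩ := Cantor.exists_homeo hperf hPne
  let M : Model Γ P :=
    { act := fun g z => ⟨a g z, haP g z z.2⟩
      cont := fun g => ((ha g).comp continuous_subtype_val).subtype_mk _
      act_one := fun z => Subtype.ext (by funext m; simp [a, sig_one])
      act_mul := fun g h z => Subtype.ext (by funext m; simp [a, sig_mul])
      R := fun y => {z | ∃ w, p y w = z}
      equiv := by
        rintro g y z ⟨w, hw⟩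
        exact ⟨w, by rw [← hap, hw]⟩
      dense := by
        rw [eq_univ_iff_forall]
        intro z
        rw [closure_subtype]
        refine closure_mono ?_ z.2
        rintro _ ⟨y, w, rfl⟩
        exact ⟨⟨p y w, subset_closure ⟨_, _, rfl⟩⟩, mem_iUnion.mpr ⟨y, w, rfl⟩, rfl⟩ }
  refine ⟨M.transport e, fun n => M.transport_good e ?_⟩
  let c : ℕ := j.symm (Sum.inl (n, 1))
  have hc : ∀ y w, p y w c = true ↔ y ∈ B n := by
    intro y w
    simp [p, c, pt]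
  have hcont : Continuous (fun z : P => (z : C) c) :=
    (continuous_apply c).comp continuous_subtype_val
  have hclo : IsClopen {z : P | (z : C) c = true} := (isClopen_discrete {true}).preimage hcont
  have hcl : M.cl (B n) = {z : P | (z : C) c = true} := by
    apply Subset.antisymm
    · refine closure_minimal ?_ hclo.1
      intro z hz
      simp only [mem_iUnion] at hz
      obtain ⟨y, hy, w, hw⟩ := hz
      change (z : C) c = true
      rw [← hw]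
      exact (hc y w).mpr hy
    · intro z hz
      have h1 : z ∈ closure (⋃ y, M.R y) := by rw [M.dense]; trivial
      refine closure_mono ?_ (hclo.2.inter_closure ⟨hz, h1⟩)
      rintro x ⟨hx1, hx2⟩
      simp only [mem_iUnion] at hx2 ⊢
      obtain ⟨y, w, hw⟩ := hx2
      refine ⟨y, (hc y w).mp ?_, w, hw⟩
      rw [hw]
      exact hx1
  refine ⟨by rw [hcl]; exact hclo.2, ?_⟩
  rintro y x ⟨w, hw⟩ hx
  rw [hcl] at hx
  refine (hc y w).mp ?_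
  rw [hw]
  exact hx

theorem final [Countable Γ] (h : Inv ({univ} : Set (Set Γ))) :
    ∃ M : Model Γ C, ∀ 𝒞 : Set (Set (Γ × C)), M.Base 𝒞 → M.Step 𝒞 → univ ∈ 𝒞 := by
  obtain ⟨-, S, hS, h⟩ := h
  obtain ⟨B, hB⟩ := (hS.insert ∅).exists_eq_range (insert_nonempty _ _)
  obtain ⟨M, hM⟩ := exists_model B
  refine ⟨M, fun 𝒞 h1 h2 => h M (fun D hD => ?_) 𝒞 h1 h2 univ ?_ ⟨by simp, by simp⟩ (by simp)⟩
  · obtain ⟨n, rfl⟩ : D ∈ range B := hB ▸ mem_insert_of_mem _ hD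
    exact hM n
  · rintro ⟨g, x⟩ -
    change x ∈ M.cl (A {univ} g)
    have : A ({univ} : Set (Set Γ)) g = univ := by
      ext y
      simp [A]
    rw [this, M.cl_univ]
    trivial

end Pool.Agent.H546Z.FDC
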