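import Mathlib

set_option autoImplicit false

namespace Pool.Agent.H546Z.PD

open SimpleGraph

variable {V : Type}

/-- distance from a vertex to a colour class -/
noncomputable def cd {κ : Type} (G : SimpleGraph V) (f : V → κ) (u : V) (i : κ) : ℕ :=
  sInf ((fun v => G.dist u v) '' {v | f v = i})

theorem cd_le {κ : Type} (G : SimpleGraph V) (f : V → κ) (u v : V) :
    cd G f u (f v) ≤ G.dist u v :=
  Nat.sInf_le ⟨v, rfl, rfl⟩

theorem cd_spec {κ : Type} (G : SimpleGraph V) {f : V → κ} (hf : Function.Surjective f)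
    (u : V) (i : κ) : ∃ v, f v = i ∧ G.dist u v = cd G f u i := by
  obtain ⟨w, hw⟩ := hf i
  have hne : ((fun v => G.dist u v) '' {v | f v = i}).Nonempty := ⟨_, w, hw, rfl⟩
  obtain ⟨v, hv, hv'⟩ := Nat.sInf_mem hne
  exact ⟨v, hv, hv'⟩

theorem cd_eq_zero {κ : Type} {G : SimpleGraph V} (hG : G.Connected) {f : V → κ}
    (hf : Function.Surjective f) (u : V) (i : κ) : cd G f u i = 0 ↔ f u = i := by
  constructor
  · intro h
    obtain ⟨v, hv, hv'⟩ := cd_spec G hf u i
    rw [h, hG.dist_eq_zero_iff] at hv'
    rw [hv', hv]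
  · rintro rfl
    have := cd_le G f u u
    rw [SimpleGraph.dist_self] at this
    omega

theorem cd_triangle {κ : Type} {G : SimpleGraph V} (hG : G.Connected) {f : V → κ}
    (hf : Function.Surjective f) (u w : V) (i : κ) :
    cd G f u i ≤ G.dist u w + cd G f w i := by
  obtain ⟨v, hv, hv'⟩ := cd_spec G hf w i
  rw [← hv', ← hv]
  exact (cd_le G f u v).trans hG.dist_triangle

theorem exists_step {G : SimpleGraph V} (hG : G.Connected) {a s : V} (h : a ≠ s) :
    ∃ b, G.Adj a b ∧ G.dist b s + 1 ≤ G.dist a s := by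
  obtain ⟨p, hp⟩ := hG.exists_walk_length_eq_dist a s
  cases p with
  | nil => exact absurd rfl h
  | cons hab q =>
    refine ⟨_, hab, ?_⟩
    rw [← hp, Walk.length_cons]
    have := SimpleGraph.dist_le q
    omega

theorem dist_adj {G : SimpleGraph V} {a b : V} (h : G.Adj a b) : G.dist a b ≤ 1 :=
  (SimpleGraph.dist_eq_one_iff_adj.2 h).le

theorem twin_le {κ : Type} {G : SimpleGraph V} (hG : G.Connected) {f : V → κ}
    (hf : Function.Surjective f) {a a' v : V} (ha : G.Adj a v) (ha' : ∀ b, G.Adj a' b → b = v)
    (hc : f a = f a') (i : κ) : cd G f a i ≤ cd G f a' i := by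
  obtain ⟨s, hs, hs'⟩ := cd_spec G hf a' i
  by_cases h : a' = s
  · have : cd G f a i = 0 := by
      rw [cd_eq_zero hG hf, hc, h, hs]
    omega
  · obtain ⟨b, hb, hb'⟩ := exists_step hG h
    rw [ha' b hb] at hb'
    have h1 := cd_le G f a s
    rw [hs] at h1
    have h2 : G.dist a s ≤ G.dist a v + G.dist v s := hG.dist_triangle
    have h3 := dist_adj ha
    omega

theorem cert {κ : Type} {G : SimpleGraph V} (hG : G.Connected) {f : V → κ}
    (hf : Function.Surjective f) (r : V → κ → ℕ) (h0 : ∀ v i, r v i = 0 ↔ f v = i)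
    (hlip : ∀ u v i, G.Adj u v → r u i ≤ r v i + 1)
    (hdesc : ∀ v i, r v i ≠ 0 → ∃ w, G.Adj v w ∧ r w i + 1 = r v i) (u : V) (i : κ) :
    cd G f u i = r u i := by
  apply le_antisymm
  · have : ∀ d u, r u i = d → cd G f u i ≤ d := by
      intro d
      induction d with
      | zero => intro u hu; rw [h0, ← cd_eq_zero hG hf] at hu; omega
      | succ d ih =>
        intro u hu
        obtain ⟨w, hw, hw'⟩ := hdesc u i (by omega)
        have h1 := ih w (by omega)
        have h2 := cd_triangle hG hf u w i
        have h3 := dist_adj hw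
        omega
    exact this _ u rfl
  · obtain ⟨v, hv, hv'⟩ := cd_spec G hf u i
    rw [← hv']
    obtain ⟨p, hp⟩ := hG.exists_walk_length_eq_dist u v
    rw [← hp]
    clear hp hv'
    induction p with
    | nil => rw [← h0] at hv; omega
    | cons hab q ih =>
      have := hlip _ _ i hab
      have := ih hv
      rw [Walk.length_cons]
      omega

/-- the graph of a parent function -/
def parG (root : V) (par : V → V) : SimpleGraph V :=
  SimpleGraph.fromRel (fun a b => a ≠ root ∧ par a = b)

theorem parG_isTree [Finite V] (root : V) (par : V → V) (dep : V → ℕ)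
    (hd : ∀ v, v ≠ root → dep (par v) + 1 = dep v) : (parG root par).IsTree := by
  have hadj : ∀ v, v ≠ root → (parG root par).Adj v (par v) := by
    intro v hv
    rw [parG, fromRel_adj]
    refine ⟨?_, Or.inl ⟨hv, rfl⟩⟩
    intro h
    have := hd v hv
    rw [← h] at this
    omega
  have hreach : ∀ d v, dep v = d → (parG root par).Reachable v root := by
    intro d
    induction d using Nat.strong_induction_on with
    | _ d ih =>
      intro v hv
      by_cases h : v = root
      · rw [h]
      · have := hd v h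
        exact (hadj v h).reachable.trans (ih _ (by omega) _ rfl)
  rw [isTree_iff_connected_and_card]
  refine ⟨?_, ?_⟩
  · have : Nonempty V := ⟨root⟩
    exact ⟨fun a b => (hreach _ a rfl).trans (hreach _ b rfl).symm⟩
  · let φ : {v : V // v ≠ root} → (parG root par).edgeSet := fun v =>
      ⟨s(v.1, par v.1), hadj v.1 v.2⟩
    have hφ : Function.Bijective φ := by
      constructor
      · rintro ⟨a, ha⟩ ⟨b, hb⟩ hab
        have h1 : s(a, par a) = s(b, par b) := congrArg Subtype.val hab
        rw [Sym2.eq_iff] at h1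
        rcases h1 with ⟨h1, -⟩ | ⟨h1, h2⟩
        · exact Subtype.ext h1
        · exfalso
          have e1 := hd a ha
          have e2 := hd b hb
          rw [h2] at e1
          rw [← h1] at e2
          omega
      · rintro ⟨e, he⟩
        induction e using Sym2.ind with
        | _ a b =>
          rw [mem_edgeSet, parG, fromRel_adj] at he
          obtain ⟨-, ⟨h1, h2⟩ | ⟨h1, h2⟩⟩ := he
          · exact ⟨⟨a, h1⟩, Subtype.ext (by simp [φ, h2])⟩
          · exact ⟨⟨b, h1⟩, Subtype.ext (by simp [φ, h2])⟩
    rw [← Nat.card_eq_of_bijective φ hφ]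
    classical
    have := Fintype.ofFinite V
    simp only [Nat.card_eq_fintype_card, ne_eq, Fintype.card_subtype_compl,
      Fintype.card_unique]
    have : 0 < Fintype.card V := Fintype.card_pos_iff.2 ⟨root⟩
    omega

theorem card_add_edge [Finite V] {T : SimpleGraph V} (hT : T.IsTree) {a b : V} (hab : a ≠ b)
    (hn : ¬ T.Adj a b) : Nat.card (T ⊔ edge a b).edgeSet = Nat.card V := by
  rw [isTree_iff_connected_and_card] at hT
  rw [← hT.2, edgeSet_sup, edgeSet_edge_of_ne hab, Set.union_singleton]
  rw [Nat.card_coe_set_eq, Nat.card_coe_set_eq, Set.ncard_insert_of_notMem]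
  exact hn

/-- counting bound: many vertices within distance two of `u`, and `n` pendant twins close by -/
theorem count {G : SimpleGraph V} (hG : G.Connected) {m n : ℕ} {g : V → Fin m}
    (hg : Function.Surjective g) (hres : ∀ u w, (∀ i, cd G g u i = cd G g w i) → u = w)
    (u v : V) (huv : G.Adj u v) (l : Fin n → V) (hl : Function.Injective l)
    (hl1 : ∀ j, G.Adj (l j) v) (hl2 : ∀ j b, G.Adj (l j) b → b = v)
    {ι : Type} [Fintype ι] (x : ι → V) (hx : Function.Injective x)
    (hx2 : ∀ a, G.dist (x a) u ≤ 2) :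
    Fintype.card ι ≤ m * (4 ^ n * 5 ^ (m - n)) := by
  classical
  have hinj : Function.Injective (fun j => g (l j)) := by
    intro j j' h
    apply hl
    apply hres
    intro i
    exact le_antisymm (twin_le hG hg (hl1 j) (hl2 j') h i)
      (twin_le hG hg (hl1 j') (hl2 j) h.symm i)
  have h4 : ∀ a j, cd G g (x a) (g (l j)) ≤ 4 := by
    intro a j
    have h1 := cd_le G g (x a) (l j)
    have h2 : G.dist (x a) (l j) ≤ G.dist (x a) u + G.dist u (l j) := hG.dist_triangle
    have h3 : G.dist u (l j) ≤ G.dist u v + G.dist v (l j) := hG.dist_triangle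
    have h5 := dist_adj huv
    have h6 := dist_adj (hl1 j).symm
    have := hx2 a
    omega
  have h5 : ∀ a i, cd G g (x a) i ≤ cd G g u i + 2 ∧ cd G g u i ≤ cd G g (x a) i + 2 := by
    intro a i
    have h1 := cd_triangle hG hg (x a) u i
    have h2 := cd_triangle hG hg u (x a) i
    have h3 := hx2 a
    have h4 : G.dist u (x a) = G.dist (x a) u := SimpleGraph.dist_comm
    omega
  let Φ : ι → Fin m × (Fin n → Fin 4) × ({i : Fin m // i ∉ Set.range (fun j => g (l j))} → Fin 5) :=
    fun a => (g (x a), fun j => ⟨cd G g (x a) (g (l j)) - 1, by have := h4 a j; omega⟩,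
      fun i => ⟨cd G g (x a) i.1 + 2 - cd G g u i.1, by have := h5 a i.1; omega⟩)
  have hΦ : Function.Injective Φ := by
    intro a b hab
    apply hx
    apply hres
    intro i
    have e1 : g (x a) = g (x b) := congrArg Prod.fst hab
    by_cases hi : i ∈ Set.range (fun j => g (l j))
    · obtain ⟨j, rfl⟩ := hi
      have e2 : cd G g (x a) (g (l j)) - 1 = cd G g (x b) (g (l j)) - 1 :=
        congrArg (fun p => ((p.2.1 j : Fin 4) : ℕ)) hab
      have z1 := cd_eq_zero hG hg (x a) (g (l j))
      have z2 := cd_eq_zero hG hg (x b) (g (l j))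
      rw [e1, ← z2] at z1
      dsimp only
      omega
    · have e2 : cd G g (x a) i + 2 - cd G g u i = cd G g (x b) i + 2 - cd G g u i :=
        congrArg (fun p => ((p.2.2 ⟨i, hi⟩ : Fin 5) : ℕ)) hab
      have := h5 a i
      have := h5 b i
      omega
  have hc := Fintype.card_le_of_injective Φ hΦ
  have hr : Fintype.card {i : Fin m // i ∉ Set.range (fun j => g (l j))} = m - n := by
    rw [Fintype.card_subtype_compl, Fintype.card_fin]
    congr 1
    exact (Set.card_range_of_injective hinj).trans (Fintype.card_fin n)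
  rw [Fintype.card_prod, Fintype.card_prod, Fintype.card_fun, Fintype.card_fun, hr] at hc
  simpa using hc

end Pool.Agent.H546Z.PD
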